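import Pool.Agent.Helper29.BA.Defs

/-!
# Classes of groups closed under extensions, stars of groups, polynomial activity
-/

set_option autoImplicit false

namespace Pool.Agent.Helper29.PA

open Pool.Agent.Helper29.BA Monoid

/-- Closed classes which also contain a group `G` whenever they contain a group `Q` and the
preimages of the cyclic subgroups of `Q` under some homomorphism `G → Q`. -/
structure ExtClass (C : ∀ (G : Type) [Group G], Prop) : Prop extends ClosedClass C where
  ext : ∀ (G Q : Type) [Group G] [Group Q] (p : G →* Q), C Q →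
    (∀ q : Q, C ((Subgroup.zpowers q).comap p)) → C G

/-- At most polynomial activity growth: the number of vertices of level `n` with a nontrivial
section is at most `c (n + 1) ^ d` for some `c` and `d`. -/
def HasPolynomialActivity {X : Type} (g : Equiv.Perm (List X)) : Prop :=
  ∃ c d : ℕ, ∀ n, {v | v.length = n ∧ ¬ HasDepth g 0 v}.ncard ≤ c * (n + 1) ^ d

/-- A star of subgroups of `T`: a centre, and leaves glued to the centre along edge groups. -/
structure Star (T : Type) [Group T] where
  /-- the centre -/
  ctr : Subgroup T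
  /-- the index set of the leaves -/
  ι : Type
  /-- the leaves -/
  leaf : ι → Subgroup T
  /-- the edge groups -/
  edge : ι → Subgroup T
  le_ctr : ∀ i, edge i ≤ ctr
  le_leaf : ∀ i, edge i ≤ leaf i

namespace Star

variable {T : Type} [Group T] (D : Star T)

/-- The leaves as groups. -/
abbrev Lf (i : D.ι) : Type := D.leaf i

/-- The free product of the centre and of the leaves. -/
abbrev Free : Type := Coprod D.ctr (CoprodI D.Lf)

/-- The inclusion of a leaf. -/
def inLeaf (i : D.ι) : D.leaf i →* D.Free :=
  Coprod.inr.comp (CoprodI.of (M := D.Lf) (i := i))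

/-- The relations: the edge groups are glued. -/
def rel : Subgroup D.Free :=
  Subgroup.normalClosure {w | ∃ (i : D.ι) (l : D.edge i),
    w = Coprod.inl (Subgroup.inclusion (D.le_ctr i) l) *
      (D.inLeaf i (Subgroup.inclusion (D.le_leaf i) l))⁻¹}

instance : D.rel.Normal := Subgroup.normalClosure_normal

/-- The fundamental group of the star. -/
abbrev Grp : Type := D.Free ⧸ D.rel

/-- The centre. -/
def c : D.ctr →* D.Grp := (QuotientGroup.mk' _).comp Coprod.inl

/-- The leaves. -/
def j (i : D.ι) : D.leaf i →* D.Grp := (QuotientGroup.mk' _).comp (D.inLeaf i)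

/-- Gluing. -/
theorem glue (i : D.ι) (l : D.edge i) :
    D.c (Subgroup.inclusion (D.le_ctr i) l) = D.j i (Subgroup.inclusion (D.le_leaf i) l) := by
  change (QuotientGroup.mk _ : D.Grp) = QuotientGroup.mk _
  rw [← div_eq_one, ← QuotientGroup.mk_div, QuotientGroup.eq_one_iff, div_eq_mul_inv]
  exact Subgroup.subset_normalClosure ⟨i, l, rfl⟩

variable {Z : Type} [Group Z]

/-- The universal property. -/
def lift (a : D.ctr →* Z) (b : ∀ i, D.leaf i →* Z)
    (h : ∀ i (l : D.edge i), a (Subgroup.inclusion (D.le_ctr i) l) =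
      b i (Subgroup.inclusion (D.le_leaf i) l)) : D.Grp →* Z :=
  QuotientGroup.lift _ (Coprod.lift a (CoprodI.lift b : CoprodI D.Lf →* Z)) (by
    refine Subgroup.normalClosure_le_normal
      (N := (Coprod.lift a (CoprodI.lift b : CoprodI D.Lf →* Z)).ker) ?_
    rintro w ⟨i, l, rfl⟩
    change Coprod.lift a (CoprodI.lift b : CoprodI D.Lf →* Z) (_ * (Coprod.inr (CoprodI.of _))⁻¹) = 1
    rw [map_mul, map_inv, Coprod.lift_apply_inl, Coprod.lift_apply_inr, CoprodI.lift_of, h,
      mul_inv_cancel])

@[simp] theorem lift_c (a : D.ctr →* Z) (b : ∀ i, D.leaf i →* Z) (h) (x : D.ctr) :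
    D.lift a b h (D.c x) = a x := rfl

@[simp] theorem lift_j (a : D.ctr →* Z) (b : ∀ i, D.leaf i →* Z) (h) (i : D.ι)
    (x : D.leaf i) : D.lift a b h (D.j i x) = b i x := by
  change Coprod.lift a (CoprodI.lift b : CoprodI D.Lf →* Z) (Coprod.inr (CoprodI.of x)) = b i x
  rw [Coprod.lift_apply_inr, CoprodI.lift_of]

theorem hom_ext {f g : D.Grp →* Z} (h0 : ∀ x, f (D.c x) = g (D.c x))
    (h : ∀ i x, f (D.j i x) = g (D.j i x)) : f = g := by
  refine QuotientGroup.monoidHom_ext _ (Coprod.hom_ext ?_ ?_)
  · exact MonoidHom.ext h0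
  · refine CoprodI.ext_hom _ _ fun i => ?_
    exact MonoidHom.ext fun x => h i x

end Star

end Pool.Agent.Helper29.PA
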