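import Pool.Agent.Helper29.PA.Main
import Pool.Agent.Helper13.PA.Star
import Pool.Agent.Helper78.PA.FreeExt

/-!
# The main theorem
-/

set_option autoImplicit false

namespace Pool.Agent.Helper29.PA

open Pool.Agent.Helper29.BA

theorem ExtClass.hasStars {C : ∀ (G : Type) [Group G], Prop} (hC : ExtClass C) : HasStars C :=
  fun _ _ D _ _ f0 f hQ h0 h hcomp =>
    hC.star_of_freeExt (fun Q Y _ _ hQ => hC.freeExt Q Y hQ) D hQ f0 f h0 h hcomp

theorem ExtClass.automata {C : ∀ (G : Type) [Group G], Prop} (hC : ExtClass C) {X : Type}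
    [Finite X] (s : Set (Equiv.Perm (List X)))
    (hs : ∀ g ∈ s, IsTreeAut g ∧ (IsBounded g ∨ IsAutomaton g ∧ HasPolynomialActivity g)) :
    C (Subgroup.closure s) :=
  polynomial hC.toClosedClass hC.hasStars s hs

end Pool.Agent.Helper29.PA
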