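import Pool.Agent.Helper29.PA.Contr

/-!
# The chain of groups of polynomial activity
-/

set_option autoImplicit false

namespace Pool.Agent.Helper29.PA

open Pool.Agent.Helper29.BA TreeAut

variable {X : Type}

theorem BH_mono (o : X) {H H' : Subgroup (TreeAut X)} (h : H ≤ H') : BH o H ≤ BH o H' :=
  fun _ hb => ⟨fun n => ⟨(hb.1 n).1, fun z hz => h ((hb.1 n).2 z hz)⟩, hb.2⟩

/-- `g` is directed along the ray `ξ` over `H`, with finitely many sections off the ray. -/
def DirH (H : Subgroup (TreeAut X)) (ξ : ℕ → X) (g : TreeAut X) : Prop :=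
  (∀ n z, z ≠ ξ n → sec (itr ξ n g) z ∈ H) ∧
    {k | ∃ n z, z ≠ ξ n ∧ k = sec (itr ξ n g) z}.Finite

theorem DirH.mono {H H' : Subgroup (TreeAut X)} (h : H ≤ H') {ξ : ℕ → X} {g : TreeAut X}
    (hg : DirH H ξ g) : DirH H' ξ g :=
  ⟨fun n z hz => h (hg.1 n z hz), hg.2⟩

theorem itr_cst (o : X) (n : ℕ) (b : TreeAut X) : itr (cst o) n b = itn o n b := by
  induction n generalizing b with
  | zero => rfl
  | succ n ih => exact ih _

theorem DirH.of_BH {o : X} {H : Subgroup (TreeAut X)} {b : TreeAut X} (hb : b ∈ BH o H) :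
    DirH H (cst o) b := by
  refine ⟨fun n z hz => ?_, hb.2.subset ?_⟩
  · rw [itr_cst]
    exact (hb.1 n).2 z hz
  · rintro k ⟨n, z, hz, rfl⟩
    exact ⟨n, z, hz, by rw [itr_cst]⟩

theorem DirH.cons {H : Subgroup (TreeAut X)} {ξ : ℕ → X} {x : X} {g : TreeAut X}
    (h1 : ∀ z, z ≠ x → sec g z ∈ H) (h2 : {k | ∃ z, z ≠ x ∧ k = sec g z}.Finite)
    (h : DirH H ξ (sec g x)) : DirH H (cons x ξ) g := by
  refine ⟨fun n z hz => ?_, (h2.union h.2).subset ?_⟩
  · cases n with
    | zero => exact h1 z hz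
    | succ n => exact h.1 n z hz
  · rintro k ⟨n, z, hz, rfl⟩
    cases n with
    | zero => exact Or.inl ⟨z, hz, rfl⟩
    | succ n => exact Or.inr ⟨n, z, hz, rfl⟩

theorem shn_zero (ξ : ℕ → X) : shn 0 ξ = ξ := funext fun k => by rw [shn, Nat.zero_add]

theorem shn_shn (m n : ℕ) (ξ : ℕ → X) : shn n (shn m ξ) = shn (m + n) ξ :=
  funext fun k => by rw [shn, shn, shn, add_assoc]

theorem DirH.itr {H : Subgroup (TreeAut X)} {ξ : ℕ → X} {g : TreeAut X} (h : DirH H ξ g) (n : ℕ) :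
    DirH H (shn n ξ) (itr ξ n g) := by
  have h1 : ∀ k, BA.itr (shn n ξ) k (BA.itr ξ n g) = BA.itr ξ (n + k) g := fun k =>
    (itr_add n k ξ g).symm
  refine ⟨fun k z hz => ?_, h.2.subset ?_⟩
  · rw [h1]
    exact h.1 (n + k) z hz
  · rintro a ⟨k, z, hz, rfl⟩
    exact ⟨n + k, z, hz, by rw [h1]⟩

/-- Off the ray the sections are in `H` at some level. -/
theorem DirH.of_ne {H : Subgroup (TreeAut X)} (hsec : ∀ h ∈ H, ∀ x, sec h x ∈ H) :
    ∀ (j : ℕ) {ξ ζ : ℕ → X} {g : TreeAut X}, DirH H ξ g → ζ j ≠ ξ j → ∃ n, BA.itr ζ n g ∈ H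
  | 0, ξ, ζ, g, h, hj => ⟨1, h.1 0 _ hj⟩
  | j + 1, ξ, ζ, g, h, hj => by
    by_cases h0 : ζ 0 = ξ 0
    · have h1 : DirH H (sh ξ) (sec g (ξ 0)) := by
        have h2 := h.itr 1
        have h3 : shn 1 ξ = sh ξ := funext fun k => by rw [shn, add_comm]; rfl
        rw [h3] at h2
        exact h2
      obtain ⟨n, hn⟩ := DirH.of_ne hsec j (ζ := sh ζ) h1 hj
      refine ⟨n + 1, ?_⟩
      change BA.itr (sh ζ) n (sec g (ζ 0)) ∈ H
      rw [h0]
      exact hn
    · exact ⟨1, h.1 0 _ h0⟩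

section

variable [DecidableEq X] (o : X)

theorem DirH.bb {H : Subgroup (TreeAut X)} {ξ : ℕ → X} {g : TreeAut X} (h : DirH H ξ g) :
    bb o g ξ ∈ BH o H := by
  refine ⟨fun n => ?_, ?_⟩
  · rw [itn_bb]
    refine ⟨rt_bb o _ _, fun z hz => ?_⟩
    obtain ⟨h2, h3⟩ := sec_bb_eq o (BA.itr ξ n g) (shn n ξ) hz
    rw [h2]
    exact h.1 n _ h3
  · refine h.2.subset ?_
    rintro k ⟨n, z, hz, rfl⟩
    obtain ⟨h2, h3⟩ := sec_bb_eq o (BA.itr ξ n g) (shn n ξ) hz
    exact ⟨n, _, h3, by rw [itn_bb, h2]⟩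

theorem DirH.mem {H K : Subgroup (TreeAut X)} {ξ : ℕ → X} {g : TreeAut X} (h : DirH H ξ g)
    (hr' : ∀ ξ, hr o ξ ∈ K) (hK : BH o H ≤ K) : g ∈ K := by
  have h1 : g = hr o (img g ξ) * BA.bb o g ξ * (hr o ξ)⁻¹ := by
    rw [BA.bb]
    group
  rw [h1]
  exact mul_mem (mul_mem (hr' _) (hK (h.bb o))) (inv_mem (hr' _))

theorem nd_dir {H : Subgroup (TreeAut X)} (η : ℕ → X) {b : TreeAut X} (hb : b ∈ BH o H)
    (ξ : ℕ → X) : DirH H ξ (hr o η * b * (hr o ξ)⁻¹) := by
  have key : ∀ (n : ℕ) (η ξ : ℕ → X) (b : TreeAut X), b ∈ BH o H →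
      BA.itr ξ n (hr o η * b * (hr o ξ)⁻¹) =
        hr o (shn n η) * itn o n b * (hr o (shn n ξ))⁻¹ := by
    intro n
    induction n with
    | zero =>
      intro η ξ b _
      rw [shn_zero, shn_zero]
      rfl
    | succ n ih =>
      intro η ξ b hb
      change BA.itr (sh ξ) n (sec (hr o η * b * (hr o ξ)⁻¹) (ξ 0)) = _
      have h1 : rt (hr o ξ)⁻¹ (ξ 0) = o := by rw [rt_hr_inv, Equiv.swap_apply_right]
      have h2 : rt b o = o := (hb.1 0).1
      rw [sec_mul, sec_mul, h1, h2, sec_hr_inv, if_pos rfl, sec_hr, if_pos rfl,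
        ih (sh η) (sh ξ) (sec b o) hb.shift]
      have h3 : ∀ ζ : ℕ → X, shn n (sh ζ) = shn (n + 1) ζ := fun ζ => funext fun k => by
        change ζ (n + k + 1) = ζ (n + 1 + k)
        congr 1
        omega
      rw [h3, h3]
      rfl
  have key2 : ∀ (n : ℕ) (z : X), z ≠ ξ n →
      sec (BA.itr ξ n (hr o η * b * (hr o ξ)⁻¹)) z = sec (itn o n b) (Equiv.swap o (ξ n) z) ∧
        Equiv.swap o (ξ n) z ≠ o := by
    intro n z hz
    have hz0 : z ≠ shn n ξ 0 := hz
    have h1 : rt (hr o (shn n ξ))⁻¹ z = Equiv.swap o (ξ n) z := by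
      rw [rt_hr_inv]
      rfl
    have h2 : Equiv.swap o (ξ n) z ≠ o := fun h => hz ((swap_eq_iff' o _ _).mp h)
    have h3 : rt (itn o n b) (Equiv.swap o (ξ n) z) ≠ o := fun h =>
      h2 (rt_injective _ (h.trans (hb.1 n).1.symm))
    rw [key n η ξ b hb, sec_mul, sec_mul, h1, sec_hr_inv, if_neg hz0, sec_hr, if_neg h3, one_mul,
      mul_one]
    exact ⟨rfl, h2⟩
  refine ⟨fun n z hz => ?_, hb.2.subset ?_⟩
  · rw [(key2 n z hz).1]
    exact (hb.1 n).2 _ (key2 n z hz).2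
  · rintro k ⟨n, z, hz, rfl⟩
    exact ⟨n, _, (key2 n z hz).2, (key2 n z hz).1⟩

/-! ### The chain -/

/-- The finitary automorphisms, the group generated by the automorphisms directed over them,
and so on. -/
def Pn : ℕ → Subgroup (TreeAut X)
  | 0 => TreeAut.finG X
  | 1 => P0 o
  | n + 2 => Pn (n + 1) ⊔ BH o (Pn (n + 1))

/-- The automorphisms directed along `o o o ...` over `Pn n`. -/
abbrev Bn (n : ℕ) : Subgroup (TreeAut X) := BH o (Pn o n)

theorem Pn_zero : Pn o 0 = TreeAut.finG X := rfl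
theorem Pn_one : Pn o 1 = P0 o := rfl
theorem Pn_succ (n : ℕ) : Pn o (n + 2) = Pn o (n + 1) ⊔ Bn o (n + 1) := rfl

theorem Pn_le_succ (n : ℕ) : Pn o n ≤ Pn o (n + 1) := by
  cases n with
  | zero => exact finG_le_P0 o
  | succ n => exact le_sup_left

theorem Pn_mono : Monotone (Pn o) := monotone_nat_of_le_succ (Pn_le_succ o)

theorem Bn_mono : Monotone (Bn o) := fun _ _ h => BH_mono o (Pn_mono o h)

omit [DecidableEq X] in
theorem BH_finG_le : BH o (TreeAut.finG X) ≤ BU o := by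
  intro b hb
  have h1 : ∀ k ∈ {k | ∃ n z, z ≠ o ∧ k = sec (itn o n b) z}, ∃ m, Dep m k := by
    rintro k ⟨n, z, hz, rfl⟩
    exact (hb.1 n).2 z hz
  choose! f hf using h1
  refine ⟨hb.2.toFinset.sup f, fun n => ⟨(hb.1 n).1, fun z hz => ?_⟩⟩
  have h2 : sec (itn o n b) z ∈ {k | ∃ n z, z ≠ o ∧ k = sec (itn o n b) z} := ⟨n, z, hz, rfl⟩
  refine (hf _ h2).mono (Finset.le_sup (f := f) ?_)
  simpa using h2

theorem Bn_le (n : ℕ) : Bn o n ≤ Pn o (n + 1) := by
  cases n with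
  | zero => exact (BH_finG_le o).trans (BU_le_P0 o)
  | succ n => exact le_sup_right

theorem hr_mem_Pn (n : ℕ) (ξ : ℕ → X) : hr o ξ ∈ Pn o (n + 1) :=
  Pn_mono o (Nat.succ_le_succ (Nat.zero_le n)) (hr_mem o ξ : hr o ξ ∈ Pn o 1)

theorem sec_mem_Pn (n : ℕ) : ∀ g ∈ Pn o n, ∀ x, sec g x ∈ Pn o n := by
  induction n with
  | zero =>
    rintro g ⟨m, hm⟩ x
    exact ⟨m, hm.sec x⟩
  | succ n ih =>
    cases n with
    | zero => exact fun g hg x => sec_mem o hg x
    | succ n =>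
      intro g hg
      rw [Pn_succ, Subgroup.sup_eq_closure] at hg
      induction hg using Subgroup.closure_induction with
      | mem w hw =>
        intro x
        rcases hw with hw | hw
        · exact Pn_le_succ o _ (ih w hw x)
        · by_cases hx : x = o
          · subst hx
            exact Bn_le x (n + 1) (InBH.shift hw)
          · exact Pn_le_succ o _ ((hw.1 0).2 x hx)
      | one => intro x; rw [sec_one]; exact one_mem _
      | mul a b _ _ ha hb => intro x; rw [sec_mul]; exact mul_mem (ha _) (hb _)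
      | inv a _ ha => intro x; rw [sec_inv]; exact inv_mem (ha _)

theorem mem_of_dir (n : ℕ) {ξ : ℕ → X} {g : TreeAut X} (h : DirH (Pn o n) ξ g) :
    g ∈ Pn o (n + 1) :=
  h.mem o (hr_mem_Pn o n) (Bn_le o n)

theorem del_mem_Pn (n : ℕ) (x : X) : ∀ g ∈ Pn o n, del x g ∈ Pn o n := by
  induction n with
  | zero =>
    rintro g ⟨m, hm⟩
    refine ⟨m + 1, fun y => ?_⟩
    rw [sec_del]
    split_ifs
    · exact hm
    · exact dep_one m
  | succ n ih =>
    cases n with
    | zero => exact fun g hg => del_mem o hg x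
    | succ n =>
      intro g hg
      rw [Pn_succ, Subgroup.sup_eq_closure] at hg
      induction hg using Subgroup.closure_induction with
      | mem w hw =>
        rcases hw with hw | hw
        · exact Pn_le_succ o _ (ih w hw)
        · refine mem_of_dir o (n + 1) (ξ := cons x (cst o)) (DirH.cons (fun z hz => ?_) ?_ ?_)
          · rw [sec_del, if_neg hz]
            exact one_mem _
          · refine (Set.finite_singleton (1 : TreeAut X)).subset ?_
            rintro k ⟨z, hz, rfl⟩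
            rw [sec_del, if_neg hz]
            rfl
          · rw [sec_del, if_pos rfl]
            exact DirH.of_BH hw
      | one => rw [map_one]; exact one_mem _
      | mul a b _ _ ha hb => rw [map_mul]; exact mul_mem ha hb
      | inv a _ ha => rw [map_inv]; exact inv_mem ha

theorem finG_le_Pn (n : ℕ) : TreeAut.finG X ≤ Pn o n := Pn_mono o (Nat.zero_le n)

theorem mem_Pn_of_sec [Finite X] (n : ℕ) {g : TreeAut X} (h : ∀ x, sec g x ∈ Pn o n) :
    g ∈ Pn o n :=
  mem_of_sec (Pn o n) (finG_le_Pn o n) (fun x g hg => del_mem_Pn o n x g hg) h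

/-- `TreeAut X` as a self-similar group which contains `Pn (n + 1)` and `Bn (n + 1)`. -/
def treeMod (n : ℕ) (hd : ∀ h ∈ Pn o (n + 1), ∀ ξ : ℕ → X, ∃ m, DirH (Pn o n) (shn m ξ) (itr ξ m h)) :
    Mod o (Pn o (n + 1)) (Bn o n) (TreeAut X) where
  ph := TreeAut.wr X
  pr := MonoidHom.id _
  comp := rfl
  jH := (Pn o (n + 1)).subtype
  jB := (Bn o (n + 1)).subtype
  pr_jH _ := rfl
  pr_jB _ := rfl
  hsec := sec_mem_Pn o (n + 1)
  S_jH _ _ := rfl
  S_jB _ := rfl
  S_jB_ne _ _ _ := rfl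
  glue _ _ _ _ := rfl
  hr_mem := hr_mem_Pn o n
  le_BH := Bn_mono o (Nat.le_succ n)
  dir h hh ξ := by
    obtain ⟨m, hm⟩ := hd h hh ξ
    exact ⟨m, hm.bb o⟩

omit [DecidableEq X] in
theorem gSw_tree (g : TreeAut X) (v : List X) : gSw (TreeAut.wr X) g v = secw g v := by
  induction v generalizing g with
  | nil => rfl
  | cons x v ih => exact ih _

/-- Sections of elements of `Pn (n + 1)` along any ray are eventually directed over `Pn n`. -/
theorem exists_dirH [Finite X] (n : ℕ) : ∀ h ∈ Pn o (n + 1), ∀ ξ : ℕ → X,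
    ∃ m, DirH (Pn o n) (shn m ξ) (itr ξ m h) := by
  induction n with
  | zero =>
    intro h hh ξ
    obtain ⟨k, m, hm⟩ := exists_dir o hh ξ
    refine ⟨k, fun n z hz => ⟨m, hm n z hz⟩, ?_⟩
    have hfin : Set.Finite {k : TreeAut X | Dep m k} := (finite_depG (X := X) m)
    refine hfin.subset ?_
    rintro _ ⟨n, z, hz, rfl⟩
    exact hm n z hz
  | succ n ih =>
    intro h hh ξ
    let M := treeMod o n ih
    have hgen : h ∈ M.gen := by
      have e1 : M.jH.range = Pn o (n + 1) := Subgroup.range_subtype _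
      have e2 : M.jB.range = Bn o (n + 1) := Subgroup.range_subtype _
      rw [Mod.gen, e1, e2]
      exact hh
    obtain ⟨k, hk⟩ := Mod.ev_all hgen
    have hlen : ∀ (k : ℕ) (ξ : ℕ → X), (pre ξ k).length = k := by
      intro k
      induction k with
      | zero => intro ξ; rfl
      | succ k ih => intro ξ; rw [pre, List.length_cons, ih]
    have h1 : itr ξ k h ∈ Pn o (n + 1) ∨
        ∃ (η : ℕ → X) (b : Bn o (n + 1)) (ζ : ℕ → X),
          itr ξ k h = hr o η * b.1 * (hr o ζ)⁻¹ := by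
      have h2 := hk (pre ξ k) (hlen k ξ).ge
      have h3 : M.sw h (pre ξ k) = itr ξ k h := by
        rw [← secw_pre]
        exact gSw_tree h _
      rw [h3] at h2
      rcases h2 with ⟨f, hf⟩ | ⟨η, b, ζ, hf⟩
      · left
        rw [hf]
        exact f.2
      · exact Or.inr ⟨η, b, ζ, hf⟩
    -- the first case
    have hP : ∀ (k : ℕ), itr ξ k h ∈ Pn o (n + 1) →
        ∃ m, DirH (Pn o (n + 1)) (shn m ξ) (itr ξ m h) := by
      intro k hk
      obtain ⟨m, hm⟩ := ih _ hk (shn k ξ)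
      refine ⟨k + m, ?_⟩
      rw [← shn_shn, itr_add]
      exact hm.mono (Pn_le_succ o n)
    rcases h1 with h1 | ⟨η, b, ζ, h1⟩
    · exact hP k h1
    · have h2 : DirH (Pn o (n + 1)) ζ (itr ξ k h) := by
        rw [h1]
        exact nd_dir o η b.2 ζ
      by_cases hζ : shn k ξ = ζ
      · rw [← hζ] at h2
        exact ⟨k, h2⟩
      · obtain ⟨j, hj⟩ := Function.ne_iff.mp hζ
        obtain ⟨m, hm⟩ := h2.of_ne (sec_mem_Pn o (n + 1)) j hj
        refine hP (k + m) ?_
        rw [itr_add]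
        exact hm

end

end Pool.Agent.Helper29.PA
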