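import Pool.Agent.Helper29.BA.Contract1

/-!
# Contraction in self-similar groups which contain a group and the directed elements over it
-/

set_option autoImplicit false

namespace Pool.Agent.Helper29.PA

open Pool.Agent.Helper29.BA TreeAut

variable {X : Type} [DecidableEq X]

/-- A self-similar group `R` with compatible copies of `H` and of `BH o H`, which agree
on `L`. -/
structure Mod (o : X) (H L : Subgroup (TreeAut X)) (R : Type) [Group R] where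
  /-- the wreath recursion -/
  ph : R →* Wr X R
  /-- the action on the tree -/
  pr : R →* TreeAut X
  comp : (Wr.map pr).comp ph = (TreeAut.wr X).comp pr
  /-- the copy of `H` -/
  jH : H →* R
  /-- the copy of `BH o H` -/
  jB : BH o H →* R
  pr_jH : ∀ h, pr (jH h) = h.1
  pr_jB : ∀ b, pr (jB b) = b.1
  hsec : ∀ h ∈ H, ∀ x, sec h x ∈ H
  S_jH : ∀ (h : H) x, gS ph (jH h) x = jH ⟨sec h.1 x, hsec _ h.2 x⟩
  S_jB : ∀ b : BH o H, gS ph (jB b) o = jB ⟨sec b.1 o, b.2.shift⟩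
  S_jB_ne : ∀ (b : BH o H) x (hx : x ≠ o), gS ph (jB b) x = jH ⟨sec b.1 x, (b.2.1 0).2 x hx⟩
  glue : ∀ g (hg : g ∈ H) (hg' : g ∈ BH o H), g ∈ L → jH ⟨g, hg⟩ = jB ⟨g, hg'⟩
  hr_mem : ∀ ξ, hr o ξ ∈ H
  le_BH : L ≤ BH o H
  dir : ∀ h ∈ H, ∀ ξ : ℕ → X, ∃ n, bb o (itr ξ n h) (shn n ξ) ∈ L

namespace Mod

variable {o : X} {H L : Subgroup (TreeAut X)} {R : Type} [Group R] (M : Mod o H L R)

/-- Sections. -/
abbrev s (w : R) (x : X) : R := gS M.ph w x

/-- Sections at words. -/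
abbrev sw (w : R) (v : List X) : R := gSw M.ph w v

/-- The shift. -/
def shB (b : BH o H) : BH o H := ⟨sec b.1 o, b.2.shift⟩

/-- `hr ξ` in `R`. -/
def jR (ξ : ℕ → X) : R := M.jH ⟨hr o ξ, M.hr_mem ξ⟩

/-- The directed elements. -/
def nd (η : ℕ → X) (b : BH o H) (ξ : ℕ → X) : R := M.jR η * M.jB b * (M.jR ξ)⁻¹

theorem s_jR (ξ : ℕ → X) (x : X) : M.s (M.jR ξ) x = if x = o then M.jR (sh ξ) else 1 := by
  rw [jR, s, M.S_jH]
  split_ifs with hx
  · refine congrArg M.jH (Subtype.ext ?_)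
    change sec (hr o ξ) x = hr o (sh ξ)
    rw [sec_hr, if_pos hx]
  · refine (congrArg M.jH (Subtype.ext ?_)).trans (map_one _)
    change sec (hr o ξ) x = 1
    rw [sec_hr, if_neg hx]

theorem s_jR_inv (ξ : ℕ → X) (x : X) :
    M.s (M.jR ξ)⁻¹ x = if x = ξ 0 then (M.jR (sh ξ))⁻¹ else 1 := by
  have h1 : (M.jR ξ)⁻¹ = M.jH (⟨hr o ξ, M.hr_mem ξ⟩⁻¹) := (map_inv _ _).symm
  rw [h1, s, M.S_jH]
  split_ifs with hx
  · rw [jR, ← map_inv]
    refine congrArg M.jH (Subtype.ext ?_)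
    change sec (hr o ξ)⁻¹ x = (hr o (sh ξ))⁻¹
    rw [sec_hr_inv, if_pos hx]
  · refine (congrArg M.jH (Subtype.ext ?_)).trans (map_one _)
    change sec (hr o ξ)⁻¹ x = 1
    rw [sec_hr_inv, if_neg hx]

theorem pr_jR (ξ : ℕ → X) : M.pr (M.jR ξ) = hr o ξ := M.pr_jH _

theorem s_mul (w w' : R) (x : X) : M.s (w * w') x = M.s w (rt (M.pr w') x) * M.s w' x :=
  gS_mul M.ph M.pr M.comp w w' x

omit [DecidableEq X] in
theorem rt_B (b : BH o H) : rt b.1 o = o := (b.2.1 0).1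

theorem s_nd (η : ℕ → X) (b : BH o H) (ξ : ℕ → X) :
    M.s (M.nd η b ξ) (ξ 0) = M.nd (sh η) (shB b) (sh ξ) := by
  have h1 : rt (M.pr (M.jR ξ)⁻¹) (ξ 0) = o := by
    rw [map_inv, pr_jR, rt_hr_inv, Equiv.swap_apply_right]
  rw [nd, s_mul, s_mul, h1, s_jR_inv, if_pos rfl, s, s, M.S_jB, M.pr_jB, rt_B]
  rw [show gS M.ph (M.jR η) o = M.jR (sh η) from (M.s_jR η o).trans (if_pos rfl)]
  rfl

theorem s_nd_ne (η : ℕ → X) (b : BH o H) (ξ : ℕ → X) {x : X} (hx : x ≠ ξ 0) :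
    ∃ f : H, M.s (M.nd η b ξ) x = M.jH f := by
  have h1 : rt (M.pr (M.jR ξ)⁻¹) x = Equiv.swap o (ξ 0) x := by
    rw [map_inv, pr_jR, rt_hr_inv]
  have h2 : Equiv.swap o (ξ 0) x ≠ o := fun h => hx ((swap_eq_iff' o _ _).mp h)
  have h3 : rt (M.pr (M.jB b)) (Equiv.swap o (ξ 0) x) ≠ o := fun h => by
    rw [M.pr_jB] at h
    exact h2 (rt_injective _ (h.trans (rt_B b).symm))
  refine ⟨⟨sec b.1 (Equiv.swap o (ξ 0) x), (b.2.1 0).2 _ h2⟩, ?_⟩
  rw [nd, s_mul, s_mul, h1, s_jR_inv, if_neg hx, s_jR, if_neg h3, s, M.S_jB_ne b _ h2, one_mul,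
    mul_one]

theorem rt_nd (η : ℕ → X) (b : BH o H) (ξ : ℕ → X) : rt (M.pr (M.nd η b ξ)) (ξ 0) = η 0 := by
  rw [nd, map_mul, map_mul, rt_mul, rt_mul, map_inv, pr_jR, pr_jR, rt_hr_inv,
    Equiv.swap_apply_right, M.pr_jB, rt_B, rt_hr, Equiv.swap_apply_left]

theorem nd_inv (η : ℕ → X) (b : BH o H) (ξ : ℕ → X) : (M.nd η b ξ)⁻¹ = M.nd ξ b⁻¹ η := by
  rw [nd, nd, map_inv]
  group

theorem nd_mul (η : ℕ → X) (b : BH o H) (ζ : ℕ → X) (c : BH o H) (ξ : ℕ → X) :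
    M.nd η b ζ * M.nd ζ c ξ = M.nd η (b * c) ξ := by
  rw [nd, nd, nd, map_mul]
  group

theorem jH_of_dir {h : H} {ξ : ℕ → X} (hd : bb o h.1 ξ ∈ L) : ∃ η b, M.jH h = M.nd η b ξ := by
  have h1 : bb o h.1 ξ ∈ H := mul_mem (mul_mem (inv_mem (M.hr_mem _)) h.2) (M.hr_mem _)
  refine ⟨img h.1 ξ, ⟨bb o h.1 ξ, M.le_BH hd⟩, ?_⟩
  rw [nd, ← M.glue _ h1 (M.le_BH hd) hd, jR, jR, ← map_mul, ← map_inv, ← map_mul]
  refine congrArg M.jH (Subtype.ext ?_)
  change h.1 = hr o (img h.1 ξ) * ((hr o (img h.1 ξ))⁻¹ * h.1 * hr o ξ) * (hr o ξ)⁻¹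
  group

/-! ### The nucleus -/

/-- The nucleus. -/
def Nuc (w : R) : Prop := (∃ h : H, w = M.jH h) ∨ ∃ η b ξ, w = M.nd η b ξ

variable {M}

theorem Nuc.s {w : R} (hw : M.Nuc w) (x : X) : M.Nuc (M.s w x) := by
  rcases hw with ⟨f, rfl⟩ | ⟨η, b, ξ, rfl⟩
  · exact Or.inl ⟨_, M.S_jH f x⟩
  · by_cases hx : x = ξ 0
    · subst hx
      exact Or.inr ⟨_, _, _, M.s_nd η b ξ⟩
    · obtain ⟨f, hf⟩ := M.s_nd_ne η b ξ hx
      exact Or.inl ⟨f, hf⟩

theorem Nuc.sw {w : R} (hw : M.Nuc w) (v : List X) : M.Nuc (M.sw w v) := by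
  induction v generalizing w with
  | nil => exact hw
  | cons x v ih => exact ih (hw.s x)

theorem Nuc.inv {w : R} (hw : M.Nuc w) : M.Nuc w⁻¹ := by
  rcases hw with ⟨f, rfl⟩ | ⟨η, b, ξ, rfl⟩
  · exact Or.inl ⟨f⁻¹, (map_inv _ _).symm⟩
  · exact Or.inr ⟨_, _, _, M.nd_inv η b ξ⟩

variable (M) in
/-- Eventually in the nucleus. -/
def Ev (w : R) : Prop := ∃ n, ∀ v : List X, n ≤ v.length → M.Nuc (M.sw w v)

theorem Nuc.ev {w : R} (hw : M.Nuc w) : M.Ev w := ⟨0, fun v _ => hw.sw v⟩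

theorem Ev.inv {w : R} (hw : M.Ev w) : M.Ev w⁻¹ := by
  obtain ⟨n, hn⟩ := hw
  refine ⟨n, fun v hv => ?_⟩
  rw [Mod.sw, gSw_inv M.ph M.pr M.comp]
  refine (hn _ ?_).inv
  rw [(M.pr w⁻¹).2.1]
  exact hv

section

variable [Finite X]

theorem Ev.of_level {w : R} (n : ℕ)
    (h : ∀ v : List X, v.length = n → M.Ev (M.sw w v)) : M.Ev w := by
  classical
  have hfin : Set.Finite {v : List X | v.length = n} := List.finite_length_eq X n
  choose! N hN using h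
  refine ⟨n + hfin.toFinset.sup N, fun v hv => ?_⟩
  have h1 : (v.take n).length = n := by
    rw [List.length_take]
    omega
  have h2 : N (v.take n) ≤ hfin.toFinset.sup N :=
    Finset.le_sup (f := N) (by simpa using h1)
  have h3 : N (v.take n) ≤ (v.drop n).length := by
    rw [List.length_drop]
    omega
  have := hN (v.take n) h1 (v.drop n) h3
  rwa [Mod.sw, Mod.sw, ← gSw_append, List.take_append_drop] at this

theorem Ev.of_letter {w : R} (h : ∀ x, M.Ev (M.s w x)) : M.Ev w := by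
  refine Ev.of_level 1 fun v hv => ?_
  obtain ⟨x, rfl⟩ := List.length_eq_one_iff.mp hv
  exact h x

theorem Ev.H_nd_aux : ∀ (n : ℕ) (h : H) (η : ℕ → X) (b : BH o H) (ξ : ℕ → X),
    bb o (itr η n h.1) (shn n η) ∈ L → M.Ev (M.jH h * M.nd η b ξ)
  | 0, h, η, b, ξ, hd => by
    have h0 : shn 0 η = η := funext fun k => by rw [shn, Nat.zero_add]
    rw [h0] at hd
    obtain ⟨η', c, hc⟩ := M.jH_of_dir (h := h) hd
    rw [hc, nd_mul]
    exact Nuc.ev (Or.inr ⟨_, _, _, rfl⟩)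
  | n + 1, h, η, b, ξ, hd => by
    refine Ev.of_letter fun x => ?_
    rw [s_mul]
    by_cases hx : x = ξ 0
    · subst hx
      rw [M.rt_nd, s_nd, Mod.s, M.S_jH]
      refine Ev.H_nd_aux n _ (sh η) _ _ ?_
      have h1 : shn n (sh η) = shn (n + 1) η := by
        funext k
        change η (n + k + 1) = η (n + 1 + k)
        congr 1
        omega
      rw [h1]
      exact hd
    · obtain ⟨f, hf⟩ := M.s_nd_ne η b ξ hx
      rw [hf, Mod.s, M.S_jH, ← map_mul]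
      exact Nuc.ev (Or.inl ⟨_, rfl⟩)

theorem Ev.H_nd (h : H) (η : ℕ → X) (b : BH o H) (ξ : ℕ → X) : M.Ev (M.jH h * M.nd η b ξ) := by
  obtain ⟨n, hd⟩ := M.dir h.1 h.2 η
  exact Ev.H_nd_aux n h η b ξ hd

theorem Ev.H_mul (h : H) {w : R} (hw : M.Nuc w) : M.Ev (M.jH h * w) := by
  rcases hw with ⟨f, rfl⟩ | ⟨η, b, ξ, rfl⟩
  · rw [← map_mul]
    exact Nuc.ev (Or.inl ⟨_, rfl⟩)
  · exact Ev.H_nd h η b ξ

theorem Ev.mul_H (h : H) {w : R} (hw : M.Nuc w) : M.Ev (w * M.jH h) := by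
  have h1 := (Ev.H_mul h⁻¹ hw.inv).inv
  rwa [map_inv, mul_inv_rev, inv_inv, inv_inv] at h1

theorem Ev.nd_nd (η' : ℕ → X) (b' : BH o H) (ξ' η : ℕ → X) (b : BH o H) (ξ : ℕ → X) :
    M.Ev (M.nd η' b' ξ' * M.nd η b ξ) := by
  by_cases h : ξ' = η
  · subst h
    rw [nd_mul]
    exact Nuc.ev (Or.inr ⟨_, _, _, rfl⟩)
  · obtain ⟨n, hn⟩ := Function.ne_iff.mp h
    induction n generalizing η' b' ξ' η b ξ with
    | zero =>
      refine Ev.of_letter fun x => ?_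
      rw [s_mul]
      by_cases hx : x = ξ 0
      · subst hx
        rw [M.rt_nd]
        obtain ⟨f, hf⟩ := M.s_nd_ne η' b' ξ' (x := η 0) fun h' => hn h'.symm
        rw [hf]
        exact Ev.H_mul f (Or.inr ⟨_, _, _, M.s_nd η b ξ⟩)
      · obtain ⟨f, hf⟩ := M.s_nd_ne η b ξ hx
        rw [hf]
        exact Ev.mul_H f (Nuc.s (Or.inr ⟨_, _, _, rfl⟩) _)
    | succ n ih =>
      refine Ev.of_letter fun x => ?_
      rw [s_mul]
      by_cases hx : x = ξ 0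
      · subst hx
        rw [M.rt_nd]
        by_cases h0 : η 0 = ξ' 0
        · rw [h0, s_nd, s_nd]
          refine ih _ _ _ _ _ _ (fun h' => ?_) ?_
          · exact hn (congrFun h' n)
          · exact hn
        · obtain ⟨f, hf⟩ := M.s_nd_ne η' b' ξ' (x := η 0) h0
          rw [hf]
          exact Ev.H_mul f (Or.inr ⟨_, _, _, M.s_nd η b ξ⟩)
      · obtain ⟨f, hf⟩ := M.s_nd_ne η b ξ hx
        rw [hf]
        exact Ev.mul_H f (Nuc.s (Or.inr ⟨_, _, _, rfl⟩) _)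

theorem Nuc.mul_ev {w w' : R} (hw : M.Nuc w) (hw' : M.Nuc w') : M.Ev (w * w') := by
  rcases hw with ⟨f, rfl⟩ | ⟨η', b', ξ', rfl⟩
  · exact Ev.H_mul f hw'
  · rcases hw' with ⟨f, rfl⟩ | ⟨η, b, ξ, rfl⟩
    · exact Ev.mul_H f (Or.inr ⟨_, _, _, rfl⟩)
    · exact Ev.nd_nd _ _ _ _ _ _

theorem Ev.mul {w w' : R} (hw : M.Ev w) (hw' : M.Ev w') : M.Ev (w * w') := by
  obtain ⟨n, hn⟩ := hw
  obtain ⟨n', hn'⟩ := hw'
  refine Ev.of_level (max n n') fun v hv => ?_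
  rw [Mod.sw, gSw_mul M.ph M.pr M.comp]
  refine Nuc.mul_ev (hn _ ?_) (hn' _ ?_)
  · rw [(M.pr w').2.1, hv]
    exact le_max_left _ _
  · rw [hv]
    exact le_max_right _ _

omit [Finite X] in
theorem hr_cst1 : M.jR (cst o) = 1 := by
  refine (congrArg M.jH (Subtype.ext ?_)).trans (map_one _)
  exact hr_cst o

variable (M) in
/-- The subgroup generated by the two copies. -/
abbrev gen : Subgroup R := M.jH.range ⊔ M.jB.range

theorem ev_all {w : R} (hw : w ∈ M.gen) : M.Ev w := by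
  rw [gen, Subgroup.sup_eq_closure] at hw
  induction hw using Subgroup.closure_induction with
  | mem w hw =>
    rcases hw with ⟨h, rfl⟩ | ⟨b, rfl⟩
    · exact Nuc.ev (Or.inl ⟨h, rfl⟩)
    · refine Nuc.ev (Or.inr ⟨cst o, b, cst o, ?_⟩)
      rw [nd, hr_cst1, one_mul, inv_one, mul_one]
  | one => exact Nuc.ev (Or.inl ⟨1, (map_one _).symm⟩)
  | mul x y _ _ hx hy => exact hx.mul hy
  | inv x _ hx => exact hx.inv

end

theorem Nuc.eq_one {w : R} (hw : M.Nuc w) (h : M.pr w = 1) : w = 1 := by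
  rcases hw with ⟨f, rfl⟩ | ⟨η, b, ξ, rfl⟩
  · rw [M.pr_jH] at h
    have : f = 1 := Subtype.ext h
    rw [this, map_one]
  · have h0 : ∀ n (η ξ : ℕ → X) (b : BH o H), M.pr (M.nd η b ξ) = 1 → η n = ξ n := by
      intro n
      induction n with
      | zero =>
        intro η ξ b h
        have := M.rt_nd η b ξ
        rw [h, rt_one] at this
        exact this.symm
      | succ n ih =>
        intro η ξ b h
        refine ih (sh η) (sh ξ) (shB b) ?_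
        rw [← s_nd, Mod.s, pr_gS M.ph M.pr M.comp, h, sec_one]
    have h1 : η = ξ := funext fun n => h0 n η ξ b h
    subst h1
    rw [nd, map_mul, map_mul, map_inv, M.pr_jB] at h
    have h2 : b.1 = 1 := by
      have := mul_inv_eq_one.mp h
      exact mul_eq_left.mp this
    have h3 : b = 1 := Subtype.ext h2
    rw [h3, nd, map_one, mul_one, mul_inv_cancel]

/-- Elements of `gen` which act trivially on the tree die at some level. -/
theorem dies [Finite X] {w : R} (hw : w ∈ M.gen) (h : M.pr w = 1) :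
    ∃ n, ∀ v : List X, v.length = n → gSw M.ph w v = 1 := by
  obtain ⟨n, hn⟩ := ev_all hw
  refine ⟨n, fun v hv => (hn v hv.ge).eq_one ?_⟩
  rw [Mod.sw, pr_gSw M.ph M.pr M.comp, h, secw_one]

end Mod

end Pool.Agent.Helper29.PA
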