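import Pool.Agent.Helper29.PA.Defs
import Pool.Agent.Helper29.BA.Wr

/-!
# The action on a free group
-/

set_option autoImplicit false

namespace Pool.Agent.Helper29.PA

/-- The action of `Q` on the free group on a `Q`-set. -/
def frAct (Q Y : Type) [Group Q] [MulAction Q Y] : Q →* MulAut (FreeGroup Y) where
  toFun q := FreeGroup.freeGroupCongr (MulAction.toPerm q)
  map_one' := by
    ext w
    change FreeGroup.map (fun y : Y => (1 : Q) • y) w = w
    simp
  map_mul' a b := by
    ext w
    change FreeGroup.map (fun y : Y => (a * b) • y) w =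
      FreeGroup.map (fun y : Y => a • y) (FreeGroup.map (fun y : Y => b • y) w)
    rw [FreeGroup.map.comp]
    congr 2
    funext y
    exact mul_smul a b y

@[simp] theorem frAct_of {Q Y : Type} [Group Q] [MulAction Q Y] (q : Q) (y : Y) :
    frAct Q Y q (FreeGroup.of y) = FreeGroup.of (q • y) := rfl

end Pool.Agent.Helper29.PA
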