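import Pool.Agent.Helper29.PA.Step2

/-!
# The induction
-/

set_option autoImplicit false

namespace Pool.Agent.Helper29.PA

open Pool.Agent.Helper29.BA TreeAut Monoid

variable {X : Type} [DecidableEq X] [Finite X] (o : X)

/-! ### The base -/

section base

variable (e : ℕ) (he : 1 ≤ e)

/-- The inclusion of `BU o` in `Pn e`. -/
def bH : BU o →* Pn o e := Subgroup.inclusion ((BU_le_P0 o).trans (Pn_mono o he))

/-- The inclusion of `BU o` in `Bn e`. -/
def bB : BU o →* Bn o e := Subgroup.inclusion (BU_le_BH o (finG_le_Pn o e))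

/-- The amalgamated product over `BU o`. -/
abbrev BG0 : Type := Coprod (Pn o e) (Bn o e) ⧸ rel (bH o e he) (bB o e) Set.univ

/-- The first factor. -/
def b1 : Pn o e →* BG0 o e he := (QuotientGroup.mk' _).comp Coprod.inl

/-- The second factor. -/
def b2 : Bn o e →* BG0 o e he := (QuotientGroup.mk' _).comp Coprod.inr

theorem b1_eq_b2 (l : BU o) : b1 o e he (bH o e he l) = b2 o e he (bB o e l) :=
  mk_inl_eq (bH o e he) (bB o e) (Set.mem_univ l)

/-- The projection. -/
def bPr : BG0 o e he →* TreeAut X :=
  QuotientGroup.lift _ (Coprod.lift (Pn o e).subtype (Bn o e).subtype) (by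
    refine Subgroup.normalClosure_le_normal
      (N := (Coprod.lift (Pn o e).subtype (Bn o e).subtype).ker) ?_
    rintro w ⟨l, -, rfl⟩
    change Coprod.lift (Pn o e).subtype (Bn o e).subtype _ = 1
    rw [map_mul, map_inv, Coprod.lift_apply_inl, Coprod.lift_apply_inr]
    exact mul_inv_cancel l.1)

theorem b1_injective : Function.Injective (b1 o e he) := fun a b hab =>
  Subtype.ext (congrArg (bPr o e he) hab : bPr o e he (b1 o e he a) = bPr o e he (b1 o e he b))

theorem b2_injective : Function.Injective (b2 o e he) := fun a b hab =>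
  Subtype.ext (congrArg (bPr o e he) hab : bPr o e he (b2 o e he a) = bPr o e he (b2 o e he b))

theorem BG0_mem {C : ∀ (G : Type) [Group G], Prop} (hC : ClosedClass C) (hP : C (Pn o e)) :
    C (BG0 o e he) := by
  refine hC.amalgam (bH o e he) (bB o e) hP (hC.bh o _ hP) fun s => ?_
  have := closure_finite_BU o s
  obtain ⟨n, hn⟩ := exists_level_injective o (Subgroup.closure (s : Set (BU o)))
  let a : Equiv.Perm (Words X n) →* Equiv.Perm (Equiv.Perm (Words X n)) :=
    MulAction.toPermHom _ _
  refine ⟨Equiv.Perm (Words X n), inferInstance, inferInstance,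
    a.comp ((permWH X n).comp (Pn o e).subtype), a.comp ((permWH X n).comp (Bn o e).subtype),
    fun l => rfl, fun l hl y hy => hn l hl ?_⟩
  have h1 : permWH X n l.1 * y = y := hy
  exact mul_eq_right.mp h1

/-- The first state. -/
def baseSt : St o 1 1 (fun _ => e) (BG0 o e he) where
  γ := (b1 o e he).comp (Subgroup.inclusion (Pn_mono o he))
  β _ := b2 o e he
  δ _ := b1 o e he
  γ_inj := (b1_injective o e he).comp (Subgroup.inclusion_injective _)
  β_inj _ _ := b2_injective o e he
  δ_inj _ _ := b1_injective o e he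
  hβ i hi g h1 h2 hg := by
    have h0 : i = 0 := by omega
    subst h0
    exact b1_eq_b2 o e he ⟨g, BH_finG_le o hg⟩
  hδ i hi g h1 h2 hg := rfl

end base

variable {C : ∀ (G : Type) [Group G], Prop} (hC : ClosedClass C) (hst : HasStars C)

include hC in
theorem exists_base (F : ℕ → ℕ) (hP : ∀ e, 1 ≤ e → e ≤ max (F 0) 1 → C (Pn o e)) :
    ∃ (Q : Type) (_ : Group Q), C Q ∧ Nonempty (St o 1 1 F Q) := by
  have he : 1 ≤ max (F 0) 1 := le_max_right _ _
  refine ⟨BG0 o (max (F 0) 1) he, inferInstance, BG0_mem o _ he hC (hP _ he le_rfl), ⟨?_⟩⟩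
  refine (baseSt o (max (F 0) 1) he).restrict le_rfl fun i hi => ?_
  have h0 : i = 0 := by omega
  subst h0
  exact le_max_left _ _

/-- The code of a sequence. -/
def code (d N : ℕ) (F : ℕ → ℕ) : Fin (d + 1) → ℕ := fun i => if i.1 < N then F i + 1 else 0

include hC hst in
theorem exists_St (d : ℕ) (hP : ∀ e, 1 ≤ e → e ≤ max d 1 → C (Pn o e)) :
    ∀ (N : ℕ) (F : ℕ → ℕ), 1 ≤ N → N ≤ F (N - 1) + 1 → (∀ i j, i ≤ j → j < N → F j ≤ F i) →
      F 0 ≤ d → ∃ (Q : Type) (_ : Group Q), C Q ∧ Nonempty (St o N N F Q) := by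
  have hwf : WellFounded (Pi.Lex (· < ·) (fun {_ : Fin (d + 1)} (a b : ℕ) => a < b)) :=
    Pi.Lex.wellFounded _ fun _ => wellFounded_lt
  suffices H : ∀ (c : Fin (d + 1) → ℕ) (N : ℕ) (F : ℕ → ℕ), c = code d N F → 1 ≤ N →
      N ≤ F (N - 1) + 1 → (∀ i j, i ≤ j → j < N → F j ≤ F i) → F 0 ≤ d →
      ∃ (Q : Type) (_ : Group Q), C Q ∧ Nonempty (St o N N F Q) by
    exact fun N F => H _ N F rfl
  intro c
  induction c using hwf.induction with
  | _ c ih =>
    rintro N F rfl hN hF hanti hd
    obtain ⟨k, rfl⟩ : ∃ k, N = k + 1 := ⟨N - 1, by omega⟩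
    have hF' : k ≤ F k := by simpa using hF
    rcases Nat.eq_zero_or_pos k with hk | hk
    · subst hk
      exact exists_base o hC F fun e h1 h2 => hP e h1 (by omega)
    · -- the previous sequence
      have hk0 : k ≠ 0 := by omega
      have hFk : F k ≤ F (k - 1) := hanti _ _ (by omega) (by omega)
      have hle : ∀ i < k, i ≤ F i := fun i hi =>
        (show i ≤ F k by omega).trans (hanti _ _ (by omega) (by omega))
      have hdk : F k ≤ d := (hanti 0 k (by omega) (by omega)).trans hd
      let F' : ℕ → ℕ := fun i => if i < k then F i else F k - 1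
      have hF'1 : ∀ i, i < k → F' i = F i := fun i hi => if_pos hi
      have hF'2 : ∀ i, ¬ i < k → F' i = F k - 1 := fun i hi => if_neg hi
      have key : ∃ (Q : Type) (_ : Group Q), C Q ∧ Nonempty (St o (F k) (F k) F' Q) := by
        refine ih (code d (F k) F') ?_ (F k) F' rfl (by omega) ?_ ?_ ?_
        · refine ⟨⟨k, by omega⟩, fun j hj => ?_, ?_⟩
          · have hj' : j.1 < k := hj
            have h1 : j.1 < F k := by omega
            have h2 : j.1 < k + 1 := by omega
            simp only [code, if_pos h1, if_pos h2, hF'1 _ hj']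
          · have h2 : k < k + 1 := by omega
            simp only [code, if_pos h2]
            split_ifs with h1
            · rw [hF'2 k (lt_irrefl k)]
              omega
            · omega
        · by_cases h1 : F k - 1 < k
          · rw [hF'1 _ h1]
            have := hanti (F k - 1) k (by omega) (by omega)
            omega
          · rw [hF'2 _ h1]
            omega
        · intro i j hij hj
          by_cases h1 : j < k
          · rw [hF'1 _ h1, hF'1 _ (by omega)]
            exact hanti i j hij (by omega)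
          · rw [hF'2 _ h1]
            by_cases h2 : i < k
            · rw [hF'1 _ h2]
              have := hanti i k (by omega) (by omega)
              omega
            · rw [hF'2 _ h2]
        · rw [hF'1 0 hk]
          exact hd
      obtain ⟨Q, hQ, hCQ, ⟨S⟩⟩ := key
      exact step o hk0 hF' hle hC hst hFk hCQ
        (S.restrict hF' fun i hi => (hF'1 i hi).ge)

include hC hst in
/-- The class contains the groups of the chain. -/
theorem Pn_mem (n : ℕ) : C (Pn o n) := by
  induction n using Nat.strong_induction_on with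
  | _ n ih =>
    rcases n with _ | _ | d
    · exact hC.sub (finG_le_P0 o) (hC.range o)
    · exact hC.range o
    · obtain ⟨Q, hQ, hCQ, ⟨S⟩⟩ := exists_St o hC hst (d + 1)
        (fun e h1 h2 => ih e (by omega)) (d + 2) (fun _ => d + 1) (by omega) (by omega)
        (fun _ _ _ _ => le_rfl) le_rfl
      exact hC.inj S.γ S.γ_inj hCQ

end Pool.Agent.Helper29.PA
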