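import Pool.Agent.Helper29.PA.Defs
import Pool.Agent.Helper29.BA.Main

/-!
# Finite automata of polynomial activity growth
-/

set_option autoImplicit false

namespace Pool.Agent.Helper29.PA

open Pool.Agent.Helper29.BA TreeAut

variable {X : Type}

/-- The reachable states. -/
def Re (q : TreeAut X) : Set (TreeAut X) := {k | ∃ v, k = secw q v}

theorem self_mem_Re (q : TreeAut X) : q ∈ Re q := ⟨[], rfl⟩

theorem Re_trans {p q r : TreeAut X} (h1 : q ∈ Re p) (h2 : r ∈ Re q) : r ∈ Re p := by
  obtain ⟨v, rfl⟩ := h1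
  obtain ⟨u, rfl⟩ := h2
  exact ⟨v ++ u, (secw_append p v u).symm⟩

theorem sec_mem_Re (q : TreeAut X) (x : X) : sec q x ∈ Re q := ⟨[x], rfl⟩

theorem Re_subset {p q : TreeAut X} (h : q ∈ Re p) : Re q ⊆ Re p := fun _ hr => Re_trans h hr

/-- Repeated words. -/
def repw (w : List X) : ℕ → List X
  | 0 => []
  | n + 1 => w ++ repw w n

theorem length_repw (w : List X) (n : ℕ) : (repw w n).length = n * w.length := by
  induction n with
  | zero => simp [repw]
  | succ n ih => rw [repw, List.length_append, ih]; ring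

theorem secw_repw {q : TreeAut X} {w : List X} (h : secw q w = q) (n : ℕ) :
    secw q (repw w n) = q := by
  induction n with
  | zero => rfl
  | succ n ih => rw [repw, secw_append, h, ih]

/-- The loops at `q` of length `j * L`. -/
def loops (q : TreeAut X) (n : ℕ) : Set (List X) := {v | v.length = n ∧ secw q v = q}

theorem loops_finite [Finite X] (q : TreeAut X) (n : ℕ) : (loops q n).Finite :=
  (List.finite_length_eq X n).subset fun _ hv => hv.1

theorem two_pow_le_loops [Finite X] {q : TreeAut X} {u u' : List X} (hl : u.length = u'.length)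
    (hne : u ≠ u') (hu : secw q u = q) (hu' : secw q u' = q) (j : ℕ) :
    2 ^ j ≤ (loops q (j * u.length)).ncard := by
  classical
  induction j with
  | zero =>
    have h1 : ([] : List X) ∈ loops q (0 * u.length) := ⟨by simp, rfl⟩
    have h2 := (Set.ncard_pos (loops_finite q (0 * u.length))).mpr ⟨_, h1⟩
    rw [pow_zero]
    exact h2
  | succ j ih =>
    have h1 : ∀ w ∈ ({u, u'} : Set (List X)), w.length = u.length ∧ secw q w = q := by
      rintro w (rfl | rfl)
      · exact ⟨rfl, hu⟩
      · exact ⟨hl.symm, hu'⟩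
    have h2 : (fun w => u ++ w) '' loops q (j * u.length) ∪
        (fun w => u' ++ w) '' loops q (j * u.length) ⊆ loops q ((j + 1) * u.length) := by
      rintro _ (⟨w, hw, rfl⟩ | ⟨w, hw, rfl⟩)
      · refine ⟨?_, ?_⟩
        · simp only [List.length_append, hw.1]
          ring
        · change secw q (u ++ w) = q
          rw [secw_append, hu, hw.2]
      · refine ⟨?_, ?_⟩
        · simp only [List.length_append, hw.1]
          rw [← hl]
          ring
        · change secw q (u' ++ w) = q
          rw [secw_append, hu', hw.2]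
    have h3 : Disjoint ((fun w => u ++ w) '' loops q (j * u.length))
        ((fun w => u' ++ w) '' loops q (j * u.length)) := by
      rw [Set.disjoint_left]
      rintro _ ⟨w, hw, rfl⟩ ⟨w', hw', h⟩
      exact hne (List.append_inj h hl.symm).1.symm
    have h4 := Set.ncard_le_ncard h2 (loops_finite q _)
    rw [Set.ncard_union_eq h3 ((loops_finite q _).image _) ((loops_finite q _).image _),
      Set.ncard_image_of_injective _ (List.append_right_injective u),
      Set.ncard_image_of_injective _ (List.append_right_injective u')] at h4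
    rw [pow_succ]
    omega

/-- Polynomials do not dominate powers. -/
theorem exists_lt_two_pow (c d a L : ℕ) : ∃ j, c * (a + j * L) ^ d < 2 ^ j := by
  by_contra hcon
  push Not at hcon
  have h1 : ∀ j : ℕ, (2 : ℝ) ^ j ≤ (c * (a + L) ^ d : ℝ) * ((j + 1 : ℕ) : ℝ) ^ d := by
    intro j
    have h2 : (2 : ℝ) ^ j ≤ (c : ℝ) * ((a : ℝ) + j * L) ^ d := by exact_mod_cast hcon j
    refine h2.trans ?_
    rw [mul_assoc]
    refine mul_le_mul_of_nonneg_left ?_ (Nat.cast_nonneg c)
    rw [← mul_pow]
    refine pow_le_pow_left₀ (by positivity) ?_ d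
    push_cast
    have ha : (0 : ℝ) ≤ a := Nat.cast_nonneg a
    have hj : (0 : ℝ) ≤ j := Nat.cast_nonneg j
    have hL : (0 : ℝ) ≤ L := Nat.cast_nonneg L
    nlinarith [mul_nonneg ha hj]
  have h3 := tendsto_pow_const_div_const_pow_of_one_lt d (r := (2 : ℝ)) (by norm_num)
  have h4 := h3.comp (Filter.tendsto_add_atTop_nat 1)
  have h5 : ∀ᶠ j : ℕ in Filter.atTop,
      (((j + 1 : ℕ) : ℝ) ^ d / 2 ^ (j + 1)) < 1 / (2 * (c * (a + L) ^ d + 1 : ℝ)) := by
    refine h4.eventually_lt_const ?_
    positivity
  obtain ⟨j, hj⟩ := h5.exists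
  have h6 := h1 j
  have hK : (0 : ℝ) ≤ c * (a + L) ^ d := by positivity
  rw [div_lt_div_iff₀ (by positivity) (by positivity), one_mul] at hj
  have h7 : (0 : ℝ) ≤ ((j + 1 : ℕ) : ℝ) ^ d := by positivity
  have h8 : (2 : ℝ) ^ (j + 1) = 2 * 2 ^ j := by ring
  rw [h8] at hj
  nlinarith

/-- A state of an automaton of polynomial activity has no two loops of the same length. -/
theorem loop_unique [Finite X] {g : TreeAut X} (hp : HasPolynomialActivity g.1) {q : TreeAut X}
    (hq : q ∈ Re g) (hq1 : q ≠ 1) {u u' : List X} (hl : u.length = u'.length)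
    (hu : secw q u = q) (hu' : secw q u' = q) : u = u' := by
  by_contra hne
  obtain ⟨c, d, hc⟩ := hp
  obtain ⟨v, rfl⟩ := hq
  obtain ⟨j, hj⟩ := exists_lt_two_pow c d (v.length + 1) u.length
  have h1 := two_pow_le_loops hl hne hu hu' j
  have h2 : (loops (secw g v) (j * u.length)).ncard ≤
      {w | w.length = v.length + j * u.length ∧ ¬ HasDepth g.1 0 w}.ncard := by
    refine Set.ncard_le_ncard_of_injOn (fun w => v ++ w) ?_ ?_
      ((List.finite_length_eq X (v.length + j * u.length)).subset fun w hw => hw.1)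
    · rintro w ⟨hw1, hw2⟩
      refine ⟨by simp [hw1], ?_⟩
      rw [hasDepth_iff, secw_append, hw2]
      exact hq1
    · intro w _ w' _ h
      exact List.append_cancel_left h
  have h3 := hc (v.length + j * u.length)
  have h4 : v.length + j * u.length + 1 = v.length + 1 + j * u.length := by ring
  rw [h4] at h3
  omega

theorem mem_of_polynomial [Finite X] (M : ℕ → Subgroup (TreeAut X)) (hmono : Monotone M)
    (h1 : ∀ n g, (∀ x, TreeAut.sec g x ∈ M n) → g ∈ M n)
    (h2 : ∀ n (ξ : ℕ → X) g, (∀ j z, z ≠ ξ j → TreeAut.sec (itr ξ j g) z ∈ M n) →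
      {k | ∃ j z, z ≠ ξ j ∧ k = TreeAut.sec (itr ξ j g) z}.Finite → g ∈ M (n + 1))
    {g : TreeAut X} (hg : IsAutomaton g.1) (hp : HasPolynomialActivity g.1) : ∃ n, g ∈ M n := by
  classical
  have hfin : (Re g).Finite := finite_states hg
  suffices H : ∀ (N : ℕ) (q : TreeAut X), q ∈ Re g → (Re q).ncard = N → ∃ n, q ∈ M n from
    H _ g (self_mem_Re g) rfl
  intro N
  induction N using Nat.strong_induction_on with
  | _ N ih =>
    rintro q hq rfl
    have hRq : (Re q).Finite := hfin.subset (Re_subset hq)
    by_cases hq1 : q = 1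
    · exact ⟨0, by rw [hq1]; exact one_mem _⟩
    -- states which do not reach `q`
    have hlow : ∀ k ∈ Re q, q ∉ Re k → ∃ n, k ∈ M n := by
      intro k hk hqk
      refine ih _ ?_ k (Re_trans hq hk) rfl
      refine Set.ncard_lt_ncard ⟨Re_subset hk, fun h => hqk (h (self_mem_Re q))⟩ hRq
    -- a common bound
    have hlow' : ∃ n, ∀ k ∈ Re q, q ∉ Re k → k ∈ M n := by
      choose! f hf using hlow
      refine ⟨hRq.toFinset.sup f, fun k hk hqk => hmono (Finset.le_sup (f := f) ?_) (hf k hk hqk)⟩
      simpa using hk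
    obtain ⟨n, hn⟩ := hlow'
    by_cases hloop : ∃ x v, secw q (x :: v) = q
    · -- the strong component of `q`
      let Cc : Set (TreeAut X) := {k | k ∈ Re q ∧ q ∈ Re k}
      have hC1 : ∀ k ∈ Cc, k ≠ 1 := by
        rintro k ⟨_, v, hv⟩ rfl
        rw [secw_one] at hv
        exact hq1 hv
      have hex : ∀ k ∈ Cc, ∃ x, sec k x ∈ Cc := by
        rintro k ⟨hk, v, hv⟩
        obtain ⟨x, t, ht⟩ := hloop
        cases v with
        | nil =>
          have hkq : k = q := hv.symm
          subst hkq
          exact ⟨x, sec_mem_Re _ x, t, ht.symm⟩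
        | cons y v =>
          exact ⟨y, Re_trans hk (sec_mem_Re k y), v, hv⟩
      have huniq : ∀ k ∈ Cc, ∀ x x', sec k x ∈ Cc → sec k x' ∈ Cc → x = x' := by
        intro k hk x x' hx hx'
        by_contra hxx
        have hcyc : ∀ y, sec k y ∈ Cc → ∃ t, secw k (y :: t) = k := by
          rintro y ⟨_, hy⟩
          obtain ⟨t, ht⟩ := Re_trans hy hk.1
          exact ⟨t, ht.symm⟩
        obtain ⟨t, ht⟩ := hcyc x hx
        obtain ⟨t', ht'⟩ := hcyc x' hx'
        have h3 := loop_unique hp (Re_trans hq hk.1) (hC1 k hk)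
          (u := repw (x :: t) (x' :: t').length) (u' := repw (x' :: t') (x :: t).length)
          (by rw [length_repw, length_repw, mul_comm]) (secw_repw ht _) (secw_repw ht' _)
        rw [List.length_cons, List.length_cons, repw, repw, List.cons_append, List.cons_append] at h3
        exact hxx (List.cons.inj h3).1
      choose nx hnx using fun k : Cc => hex k.1 k.2
      let st : Cc → Cc := fun k => ⟨sec k.1 (nx k), hnx k⟩
      let ray : Cc → ℕ → X := fun k j => nx (st^[j] k)
      have hray : ∀ k, sh (ray k) = ray (st k) := fun k => rfl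
      have hitr : ∀ j k, itr (ray k) j k.1 = (st^[j] k).1 := by
        intro j
        induction j with
        | zero => intro k; rfl
        | succ j ihj =>
          intro k
          change itr (sh (ray k)) j (sec k.1 (nx k)) = _
          rw [hray]
          exact ihj (st k)
      let q' : Cc := ⟨q, self_mem_Re q, self_mem_Re q⟩
      have hoff : ∀ j z, z ≠ ray q' j → sec (itr (ray q') j q) z ∈ Re q ∧
          q ∉ Re (sec (itr (ray q') j q) z) := by
        intro j z hz
        have h3 : itr (ray q') j q = (st^[j] q').1 := hitr j q'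
        rw [h3]
        have h4 : sec (st^[j] q').1 z ∈ Re q := Re_trans (st^[j] q').2.1 (sec_mem_Re _ z)
        refine ⟨h4, fun h5 => hz ?_⟩
        exact huniq _ (st^[j] q').2 z (nx (st^[j] q')) ⟨h4, h5⟩ (hnx _)
      refine ⟨n + 1, h2 n (ray q') q (fun j z hz => ?_) (hRq.subset ?_)⟩
      · exact hn _ (hoff j z hz).1 (hoff j z hz).2
      · rintro k ⟨j, z, hz, rfl⟩
        exact (hoff j z hz).1
    · refine ⟨n, h1 n q fun x => hn _ (sec_mem_Re q x) ?_⟩
      rintro ⟨v, hv⟩
      exact hloop ⟨x, v, hv.symm⟩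

end Pool.Agent.Helper29.PA
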