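import Pool.Agent.Helper29.PA.Ind
import Pool.Agent.Helper29.PA.Poly

/-!
# The class contains the groups of automata of polynomial activity
-/

set_option autoImplicit false

namespace Pool.Agent.Helper29.PA

open Pool.Agent.Helper29.BA TreeAut

variable {X : Type}

/-- The union of the chain. -/
def Pinf [DecidableEq X] (o : X) : Subgroup (TreeAut X) := ⨆ n, Pn o n

theorem mem_Pinf [DecidableEq X] (o : X) {g : TreeAut X} : g ∈ Pinf o ↔ ∃ n, g ∈ Pn o n :=
  Subgroup.mem_iSup_of_directed (Pn_mono o).directed_le

theorem Pinf_mem [DecidableEq X] [Finite X] (o : X) {C : ∀ (G : Type) [Group G], Prop}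
    (hC : ClosedClass C) (hst : HasStars C) : C (Pinf o) := by
  refine hC.ofUnion (fun n => (Pn o n).subgroupOf (Pinf o)) ?_ ?_ ?_
  · intro m n hmn b hb
    exact Pn_mono o hmn hb
  · rintro ⟨b, hb⟩
    exact (mem_Pinf o).mp hb
  · intro n
    refine hC.inj (H := Pn o n)
      { toFun := fun b => ⟨b.1.1, b.2⟩
        map_one' := rfl
        map_mul' := fun _ _ => rfl } ?_ (Pn_mem o hC hst n)
    intro a b hab
    have := congrArg Subtype.val hab
    exact Subtype.ext (Subtype.ext this)

/-- The class contains every group generated by tree automorphisms each of which is bounded or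
a finite automaton of polynomial activity growth. -/
theorem polynomial {C : ∀ (G : Type) [Group G], Prop} (hC : ClosedClass C) (hst : HasStars C)
    [Finite X] (s : Set (Equiv.Perm (List X)))
    (hs : ∀ g ∈ s, IsTreeAut g ∧ (IsBounded g ∨ IsAutomaton g ∧ HasPolynomialActivity g)) :
    C (Subgroup.closure s) := by
  classical
  by_cases hX : Nonempty X
  · obtain ⟨o⟩ := hX
    have hle : Subgroup.closure s ≤ (Pinf o).map (TreeAut X).subtype := by
      rw [Subgroup.closure_le]
      intro g hg
      refine ⟨⟨g, (hs g hg).1⟩, ?_, rfl⟩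
      rcases (hs g hg).2 with h | ⟨h, h'⟩
      · exact (mem_Pinf o).mpr ⟨1, IsBounded.mem_range o h⟩
      · exact (mem_Pinf o).mpr (mem_of_polynomial (Pn o) (Pn_mono o)
          (fun n g hg => mem_Pn_of_sec o n hg) (fun n ξ g h1 h2 => mem_of_dir o n ⟨h1, h2⟩) h h')
    refine hC.sub hle (hC.iso _ _ (Subgroup.equivMapOfInjective _ _ ?_) (Pinf_mem o hC hst))
    exact Subtype.val_injective
  · have hle : Subgroup.closure s ≤ TreeAut X := by
      rw [Subgroup.closure_le]
      exact fun g hg => (hs g hg).1
    refine hC.finite _ ?_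
    have : Subsingleton (Subgroup.closure s) := by
      refine ⟨fun a b => Subtype.ext (Equiv.ext fun w => ?_)⟩
      have hw : w = [] := by
        cases w with
        | nil => rfl
        | cons x _ => exact absurd ⟨x⟩ hX
      have h1 := (hle a.2).1 w
      have h2 := (hle b.2).1 w
      rw [hw] at h1 h2 ⊢
      rw [List.length_nil, List.length_eq_zero_iff] at h1 h2
      rw [h1, h2]
    exact Finite.of_subsingleton

end Pool.Agent.Helper29.PA
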