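import Pool.Agent.Helper29.PA.Defs
import Pool.Agent.Helper29.PA.Chain

/-!
# The induction step
-/

set_option autoImplicit false

namespace Pool.Agent.Helper29.PA

open Pool.Agent.Helper29.BA TreeAut

/-- The star lemma for the class `C`. -/
def HasStars (C : ∀ (G : Type) [Group G], Prop) : Prop :=
  ∀ (T : Type) [Group T] (D : Star T) (Q : Type) [Group Q] (f0 : D.ctr →* Q)
    (f : ∀ i, D.leaf i →* Q), C Q → Function.Injective f0 → (∀ i, Function.Injective (f i)) →
    (∀ i (l : D.edge i), f0 (Subgroup.inclusion (D.le_ctr i) l) =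
      f i (Subgroup.inclusion (D.le_leaf i) l)) → C D.Grp

section

variable {X : Type}

/-! ### Recursions -/

/-- The recursion on a group closed under sections. -/
def recP {R : Type} [Group R] {H : Subgroup (TreeAut X)} (hs : ∀ h ∈ H, ∀ x, sec h x ∈ H)
    (f : H →* R) : H →* Wr X R where
  toFun h := ⟨root h.1, fun x => f ⟨sec h.1 x, hs _ h.2 x⟩⟩
  map_one' := by
    refine Wr.ext rfl (funext fun x => ?_)
    exact (congrArg f (Subtype.ext (sec_one x))).trans (map_one _)
  map_mul' a b := by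
    refine Wr.ext (Equiv.ext fun x => rt_mul a.1 b.1 x) (funext fun x => ?_)
    change f _ = f _ * f _
    rw [← map_mul]
    exact congrArg f (Subtype.ext (sec_mul a.1 b.1 x))

variable [DecidableEq X]

/-- The recursion on the directed elements. -/
def recB {R : Type} [Group R] {o : X} {H : Subgroup (TreeAut X)} (fB : BH o H →* R)
    (f : H →* R) : BH o H →* Wr X R where
  toFun b := ⟨root b.1, fun x => if h : x = o then fB ⟨sec b.1 o, b.2.shift⟩ else
    f ⟨sec b.1 x, (b.2.1 0).2 x h⟩⟩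
  map_one' := by
    refine Wr.ext rfl (funext fun x => ?_)
    by_cases hx : x = o
    · simp only [hx, dite_true, Wr.one_s]
      exact (congrArg fB (Subtype.ext (sec_one o))).trans (map_one _)
    · simp only [hx, dite_false, Wr.one_s]
      exact (congrArg f (Subtype.ext (sec_one x))).trans (map_one _)
  map_mul' b c := by
    have hc : rt c.1 o = o := (c.2.1 0).1
    refine Wr.ext (Equiv.ext fun x => rt_mul b.1 c.1 x) (funext fun x => ?_)
    by_cases hx : x = o
    · subst hx
      change (if h : x = x then fB ⟨sec (b * c).1 x, (b * c).2.shift⟩ else _) =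
        (if h : rt c.1 x = x then fB ⟨sec b.1 x, b.2.shift⟩ else _) *
          (if h : x = x then fB ⟨sec c.1 x, c.2.shift⟩ else _)
      rw [dif_pos rfl, dif_pos hc, dif_pos rfl, ← map_mul]
      refine congrArg fB (Subtype.ext ?_)
      change sec (b.1 * c.1) x = sec b.1 x * sec c.1 x
      rw [sec_mul, hc]
    · have hx' : rt c.1 x ≠ o := fun h => hx (rt_injective _ (h.trans hc.symm))
      change (if h : x = o then fB ⟨sec (b * c).1 o, (b * c).2.shift⟩ else _) =
        (if h : rt c.1 x = o then fB ⟨sec b.1 o, b.2.shift⟩ else _) *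
          (if h : x = o then fB ⟨sec c.1 o, c.2.shift⟩ else _)
      rw [dif_neg hx, dif_neg hx', dif_neg hx, ← map_mul]
      exact congrArg f (Subtype.ext (sec_mul b.1 c.1 x))

theorem recB_s_o {R : Type} [Group R] {o : X} {H : Subgroup (TreeAut X)} (fB : BH o H →* R)
    (f : H →* R) (b : BH o H) : (recB fB f b).s o = fB ⟨sec b.1 o, b.2.shift⟩ := dif_pos rfl

theorem recB_s_ne {R : Type} [Group R] {o : X} {H : Subgroup (TreeAut X)} (fB : BH o H →* R)
    (f : H →* R) (b : BH o H) {x : X} (hx : x ≠ o) :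
    (recB fB f b).s x = f ⟨sec b.1 x, (b.2.1 0).2 x hx⟩ := dif_neg hx

/-! ### The quotient by the elements which die -/

section quot

variable {R : Type} [Group R] (ph : R →* Wr X R) (pr : R →* TreeAut X)
  (hcomp : (Wr.map pr).comp ph = (TreeAut.wr X).comp pr)

omit [DecidableEq X]

/-- The elements which die at some level. -/
def dieG : Subgroup R := ⨆ n, (gPs ph pr hcomp n).ker

theorem gPs_mono : Monotone fun n => (gPs ph pr hcomp n).ker :=
  monotone_nat_of_le_succ fun _ _ h => gPs_succ ph pr hcomp h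

theorem mem_dieG {w : R} : w ∈ dieG ph pr hcomp ↔ ∃ n, gPs ph pr hcomp n w = 1 := by
  rw [dieG, Subgroup.mem_iSup_of_directed (gPs_mono ph pr hcomp).directed_le]
  rfl

instance : (dieG ph pr hcomp).Normal := by
  refine ⟨fun w hw g => ?_⟩
  obtain ⟨n, hn⟩ := (mem_dieG ph pr hcomp).mp hw
  refine (mem_dieG ph pr hcomp).mpr ⟨n, ?_⟩
  rw [map_mul, map_mul, hn, mul_one, ← map_mul, mul_inv_cancel, map_one]

theorem pr_of_mem_dieG (o : X) {w : R} (hw : w ∈ dieG ph pr hcomp) : pr w = 1 := by
  obtain ⟨n, hn⟩ := (mem_dieG ph pr hcomp).mp hw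
  exact pr_of_gPs ph pr hcomp o hn

/-- The action of the quotient on the tree. -/
def prK (o : X) : R ⧸ dieG ph pr hcomp →* TreeAut X :=
  QuotientGroup.lift _ pr fun _ hw => pr_of_mem_dieG ph pr hcomp o hw

theorem _root_.Pool.Agent.Helper29.BA.ClosedClass.dieG {C : ∀ (G : Type) [Group G], Prop}
    (hC : ClosedClass C) [Finite X] (hR : C R) : C (R ⧸ dieG ph pr hcomp) := by
  refine hC.ofDirected (fun n => (gPs ph pr hcomp n).ker) _ (gPs_mono ph pr hcomp)
    (fun n w hw => (mem_dieG ph pr hcomp).mpr ⟨n, hw⟩)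
    (fun w hw => (mem_dieG ph pr hcomp).mp hw) fun n => ?_
  exact hC.inj (QuotientGroup.kerLift _) (QuotientGroup.kerLift_injective _) (hC.wr hR)

end quot

/-! ### States -/

variable (o : X)

/-- A group `Q` with copies of `Pn c`, and of `Bn (F i)` and `Pn (F i)` for `i < k`, which agree
with the first one on `Bn i` and `Pn i`. -/
structure St (c k : ℕ) (F : ℕ → ℕ) (Q : Type) [Group Q] where
  /-- the centre -/
  γ : Pn o c →* Q
  /-- the groups of directed elements -/
  β : ∀ i, Bn o (F i) →* Q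
  /-- their companions -/
  δ : ∀ i, Pn o (F i) →* Q
  γ_inj : Function.Injective γ
  β_inj : ∀ i < k, Function.Injective (β i)
  δ_inj : ∀ i < k, Function.Injective (δ i)
  hβ : ∀ i < k, ∀ g (h1 : g ∈ Pn o c) (h2 : g ∈ Bn o (F i)), g ∈ Bn o i →
    γ ⟨g, h1⟩ = β i ⟨g, h2⟩
  hδ : ∀ i < k, ∀ g (h1 : g ∈ Pn o c) (h2 : g ∈ Pn o (F i)), g ∈ Pn o i →
    γ ⟨g, h1⟩ = δ i ⟨g, h2⟩

/-- Smaller groups. -/
def St.restrict {o : X} {c k k' : ℕ} {F G : ℕ → ℕ} {Q : Type} [Group Q] (S : St o c k F Q)
    (hk : k' ≤ k) (hG : ∀ i < k', G i ≤ F i) : St o c k' G Q where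
  γ := S.γ
  β i := if h : i < k' then (S.β i).comp (Subgroup.inclusion (Bn_mono o (hG i h))) else 1
  δ i := if h : i < k' then (S.δ i).comp (Subgroup.inclusion (Pn_mono o (hG i h))) else 1
  γ_inj := S.γ_inj
  β_inj i hi := by
    rw [dif_pos hi]
    exact (S.β_inj i (hi.trans_le hk)).comp (Subgroup.inclusion_injective _)
  δ_inj i hi := by
    rw [dif_pos hi]
    exact (S.δ_inj i (hi.trans_le hk)).comp (Subgroup.inclusion_injective _)
  hβ i hi g h1 h2 hg := by
    rw [dif_pos hi]
    exact S.hβ i (hi.trans_le hk) g h1 _ hg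
  hδ i hi g h1 h2 hg := by
    rw [dif_pos hi]
    exact S.hδ i (hi.trans_le hk) g h1 _ hg

/-- The leaves. -/
inductive Lv (k : ℕ)
  | m : Lv k
  | b : Fin k → Lv k
  | p : Fin k → Lv k

variable {k : ℕ} {F : ℕ → ℕ} (hk : k ≠ 0) (he : k ≤ F k) (hF : ∀ i < k, i ≤ F i)

/-- The star of the step. -/
def stepStar : Star (TreeAut X) where
  ctr := Pn o (F k)
  ι := Lv k
  leaf
    | .m => Bn o (F k)
    | .b i => Bn o (F i)
    | .p i => Pn o (F i)
  edge
    | .m => Bn o (k - 1)
    | .b i => Bn o i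
    | .p i => Pn o i
  le_ctr
    | .m => (Bn_le o (k - 1)).trans (Pn_mono o (by omega))
    | .b i => (Bn_le o i).trans (Pn_mono o (by have := i.2; omega))
    | .p i => Pn_mono o (by have := i.2; omega)
  le_leaf
    | .m => Bn_mono o (by omega)
    | .b i => Bn_mono o (hF i i.2)
    | .p i => Pn_mono o (hF i i.2)

end

end Pool.Agent.Helper29.PA
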