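import Pool.Agent.Helper29.PA.Step

/-!
# The induction step: the self-similar group
-/

set_option autoImplicit false

namespace Pool.Agent.Helper29.PA

open Pool.Agent.Helper29.BA TreeAut

variable {X : Type} [DecidableEq X] (o : X) {k : ℕ} {F : ℕ → ℕ} (hk : k ≠ 0) (he : k ≤ F k)
  (hF : ∀ i < k, i ≤ F i)

/-- The group of the step. -/
abbrev SG : Type := (stepStar o hk he hF).Grp

/-- The centre. -/
def sC : Pn o (F k) →* SG o hk he hF := (stepStar o hk he hF).c

/-- The main leaf. -/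
def sM : Bn o (F k) →* SG o hk he hF := (stepStar o hk he hF).j .m

/-- The other leaves. -/
def sB (i : Fin k) : Bn o (F i) →* SG o hk he hF := (stepStar o hk he hF).j (.b i)

/-- The companions. -/
def sP (i : Fin k) : Pn o (F i) →* SG o hk he hF := (stepStar o hk he hF).j (.p i)

theorem glueM {g : TreeAut X} (h1 : g ∈ Pn o (F k)) (h2 : g ∈ Bn o (F k))
    (h : g ∈ Bn o (k - 1)) : sC o hk he hF ⟨g, h1⟩ = sM o hk he hF ⟨g, h2⟩ :=
  (stepStar o hk he hF).glue .m ⟨g, h⟩

theorem glueB (i : Fin k) {g : TreeAut X} (h1 : g ∈ Pn o (F k)) (h2 : g ∈ Bn o (F i))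
    (h : g ∈ Bn o i) : sC o hk he hF ⟨g, h1⟩ = sB o hk he hF i ⟨g, h2⟩ :=
  (stepStar o hk he hF).glue (.b i) ⟨g, h⟩

theorem glueP (i : Fin k) {g : TreeAut X} (h1 : g ∈ Pn o (F k)) (h2 : g ∈ Pn o (F i))
    (h : g ∈ Pn o i) : sC o hk he hF ⟨g, h1⟩ = sP o hk he hF i ⟨g, h2⟩ :=
  (stepStar o hk he hF).glue (.p i) ⟨g, h⟩

/-- The action on the tree. -/
def sPr : SG o hk he hF →* TreeAut X :=
  (stepStar o hk he hF).lift (Pn o (F k)).subtype (fun i => ((stepStar o hk he hF).leaf i).subtype)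
    fun _ _ => rfl

@[simp] theorem sPr_C (g : Pn o (F k)) : sPr o hk he hF (sC o hk he hF g) = g.1 := rfl

@[simp] theorem sPr_M (g : Bn o (F k)) : sPr o hk he hF (sM o hk he hF g) = g.1 :=
  (stepStar o hk he hF).lift_j _ _ _ .m g

@[simp] theorem sPr_B (i : Fin k) (g : Bn o (F i)) : sPr o hk he hF (sB o hk he hF i g) = g.1 :=
  (stepStar o hk he hF).lift_j _ _ _ (.b i) g

@[simp] theorem sPr_P (i : Fin k) (g : Pn o (F i)) : sPr o hk he hF (sP o hk he hF i g) = g.1 :=
  (stepStar o hk he hF).lift_j _ _ _ (.p i) g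

/-- The recursion on the leaves. -/
def recL : ∀ i : Lv k, (stepStar o hk he hF).leaf i →* Wr X (SG o hk he hF)
  | .m => recB (o := o) (H := Pn o (F k)) (sM o hk he hF) (sC o hk he hF)
  | .b i => recB (o := o) (H := Pn o (F i)) (sB o hk he hF i) (sP o hk he hF i)
  | .p i => recP (sec_mem_Pn o (F i)) (sP o hk he hF i)

/-- The recursion on the centre. -/
def recC : Pn o (F k) →* Wr X (SG o hk he hF) := recP (sec_mem_Pn o (F k)) (sC o hk he hF)

theorem rec_glue : ∀ (i : Lv k) (l : (stepStar o hk he hF).edge i),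
    recC o hk he hF (Subgroup.inclusion ((stepStar o hk he hF).le_ctr i) l) =
      recL o hk he hF i (Subgroup.inclusion ((stepStar o hk he hF).le_leaf i) l)
  | .m, l => by
    refine Wr.ext rfl (funext fun x => ?_)
    by_cases hx : x = o
    · subst hx
      refine Eq.trans ?_ (recB_s_o _ _ _).symm
      exact glueM x hk he hF _ _ (InBH.shift l.2)
    · exact (recB_s_ne (H := Pn o (F k)) (sM o hk he hF) (sC o hk he hF)
        (Subgroup.inclusion ((stepStar o hk he hF).le_leaf .m) l) hx).symm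
  | .b i, l => by
    refine Wr.ext rfl (funext fun x => ?_)
    by_cases hx : x = o
    · subst hx
      refine Eq.trans ?_ (recB_s_o _ _ _).symm
      exact glueB x hk he hF i _ _ (InBH.shift l.2)
    · refine Eq.trans ?_ (recB_s_ne _ _ _ hx).symm
      exact glueP o hk he hF i _ _ ((l.2.1 0).2 x hx)
  | .p i, l => by
    refine Wr.ext rfl (funext fun x => ?_)
    exact glueP o hk he hF i _ _ (sec_mem_Pn o i _ l.2 x)

/-- The wreath recursion. -/
def sPh : SG o hk he hF →* Wr X (SG o hk he hF) :=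
  (stepStar o hk he hF).lift (recC o hk he hF) (recL o hk he hF) (rec_glue o hk he hF)

theorem sPh_C (g : Pn o (F k)) : sPh o hk he hF (sC o hk he hF g) = recC o hk he hF g := rfl

theorem sPh_M (g : Bn o (F k)) : sPh o hk he hF (sM o hk he hF g) =
    recB (o := o) (H := Pn o (F k)) (sM o hk he hF) (sC o hk he hF) g :=
  (stepStar o hk he hF).lift_j _ _ _ .m g

theorem sPh_B (i : Fin k) (g : Bn o (F i)) : sPh o hk he hF (sB o hk he hF i g) =
    recB (o := o) (H := Pn o (F i)) (sB o hk he hF i) (sP o hk he hF i) g :=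
  (stepStar o hk he hF).lift_j _ _ _ (.b i) g

theorem sPh_P (i : Fin k) (g : Pn o (F i)) : sPh o hk he hF (sP o hk he hF i g) =
    recP (sec_mem_Pn o (F i)) (sP o hk he hF i) g :=
  (stepStar o hk he hF).lift_j _ _ _ (.p i) g

omit [DecidableEq X] in
theorem map_recP {R : Type} [Group R] (pr : R →* TreeAut X) {H : Subgroup (TreeAut X)}
    (hs : ∀ h ∈ H, ∀ x, sec h x ∈ H) (f : H →* R) (hf : ∀ h, pr (f h) = h.1) (h : H) :
    Wr.map pr (recP hs f h) = TreeAut.wr X h.1 :=
  Wr.ext rfl (funext fun x => hf ⟨sec h.1 x, hs _ h.2 x⟩)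

theorem map_recB {R : Type} [Group R] (pr : R →* TreeAut X) {H : Subgroup (TreeAut X)}
    (fB : BH o H →* R) (f : H →* R) (hB : ∀ b, pr (fB b) = b.1) (hf : ∀ h, pr (f h) = h.1)
    (b : BH o H) : Wr.map pr (recB fB f b) = TreeAut.wr X b.1 := by
  refine Wr.ext rfl (funext fun x => ?_)
  by_cases hx : x = o
  · subst hx
    exact (congrArg pr (recB_s_o fB f b)).trans (hB _)
  · exact (congrArg pr (recB_s_ne fB f b hx)).trans (hf _)

theorem sComp : (Wr.map (sPr o hk he hF)).comp (sPh o hk he hF) =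
    (TreeAut.wr X).comp (sPr o hk he hF) := by
  refine (stepStar o hk he hF).hom_ext (fun g => ?_) (fun i g => ?_)
  · exact map_recP (sPr o hk he hF) (sec_mem_Pn o (F k)) _ (sPr_C o hk he hF) g
  · cases i with
    | m =>
      have h1 := map_recB o (sPr o hk he hF) _ _ (sPr_M o hk he hF) (sPr_C o hk he hF) g
      change Wr.map (sPr o hk he hF) (sPh o hk he hF (sM o hk he hF g)) =
        TreeAut.wr X (sPr o hk he hF (sM o hk he hF g))
      rw [sPh_M, sPr_M]
      exact h1
    | b i =>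
      have h1 := map_recB o (sPr o hk he hF) _ _ (sPr_B o hk he hF i) (sPr_P o hk he hF i) g
      change Wr.map (sPr o hk he hF) (sPh o hk he hF (sB o hk he hF i g)) =
        TreeAut.wr X (sPr o hk he hF (sB o hk he hF i g))
      rw [sPh_B, sPr_B]
      exact h1
    | p i =>
      have h1 := map_recP (sPr o hk he hF) (sec_mem_Pn o (F i)) _ (sPr_P o hk he hF i) g
      change Wr.map (sPr o hk he hF) (sPh o hk he hF (sP o hk he hF i g)) =
        TreeAut.wr X (sPr o hk he hF (sP o hk he hF i g))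
      rw [sPh_P, sPr_P]
      exact h1

/-- The copies of `Pn k` and `Bn k` in the group of the step. -/
def sMod [Finite X] : Mod o (Pn o k) (Bn o (k - 1)) (SG o hk he hF) where
  ph := sPh o hk he hF
  pr := sPr o hk he hF
  comp := sComp o hk he hF
  jH := (sC o hk he hF).comp (Subgroup.inclusion (Pn_mono o he))
  jB := (sM o hk he hF).comp (Subgroup.inclusion (Bn_mono o he))
  pr_jH _ := rfl
  pr_jB _ := sPr_M o hk he hF _
  hsec := sec_mem_Pn o k
  S_jH h x := rfl
  S_jB b := by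
    change (sPh o hk he hF (sM o hk he hF _)).s o = _
    rw [sPh_M, recB_s_o]
    rfl
  S_jB_ne b x hx := by
    change (sPh o hk he hF (sM o hk he hF _)).s x = _
    rw [sPh_M, recB_s_ne _ _ _ hx]
    rfl
  glue g h1 h2 h3 := glueM o hk he hF (Pn_mono o he h1) (Bn_mono o he h2) h3
  hr_mem ξ := by
    obtain ⟨j, rfl⟩ := Nat.exists_eq_succ_of_ne_zero hk
    exact hr_mem_Pn o j ξ
  le_BH := Bn_mono o (Nat.sub_le k 1)
  dir h hh ξ := by
    obtain ⟨j, rfl⟩ := Nat.exists_eq_succ_of_ne_zero hk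
    obtain ⟨m, hm⟩ := exists_dirH o j h hh ξ
    exact ⟨m, hm.bb o⟩

/-- The quotient by the elements which die. -/
abbrev SQ : Type := SG o hk he hF ⧸ dieG (sPh o hk he hF) (sPr o hk he hF) (sComp o hk he hF)

/-- The quotient map. -/
def sQ : SG o hk he hF →* SQ o hk he hF := QuotientGroup.mk' _

/-- The action of the quotient on the tree. -/
def sPrK : SQ o hk he hF →* TreeAut X :=
  prK (sPh o hk he hF) (sPr o hk he hF) (sComp o hk he hF) o

@[simp] theorem sPrK_Q (w : SG o hk he hF) :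
    sPrK o hk he hF (sQ o hk he hF w) = sPr o hk he hF w := rfl

variable [Finite X]

theorem sQ_eq_one {w : SG o hk he hF} (hw : w ∈ (sMod o hk he hF).gen)
    (h : sPr o hk he hF w = 1) : sQ o hk he hF w = 1 := by
  obtain ⟨n, hn⟩ := Mod.dies (M := sMod o hk he hF) hw h
  refine (QuotientGroup.eq_one_iff _).mpr ((mem_dieG _ _ _).mpr ⟨n, ?_⟩)
  refine (gPs_eq_one_iff _ _ _).mpr fun v hv => ⟨?_, hn v hv⟩
  rw [h]
  rfl

/-- The projection of the subgroup generated by the copies to `Pn (k + 1)`. -/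
def genPr : (sMod o hk he hF).gen →* Pn o (k + 1) where
  toFun w := ⟨sPr o hk he hF w.1, by
    have h1 : (sMod o hk he hF).gen ≤ (Pn o (k + 1)).comap (sPr o hk he hF) := by
      rw [Mod.gen, sup_le_iff]
      constructor
      · rintro _ ⟨h, rfl⟩
        have h2 : (h : TreeAut X) ∈ Pn o (k + 1) := Pn_le_succ o k h.2
        exact h2
      · rintro _ ⟨b, rfl⟩
        change sPr o hk he hF (sM o hk he hF (Subgroup.inclusion (Bn_mono o he) b)) ∈ Pn o (k + 1)
        rw [sPr_M]
        exact Bn_le o k b.2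
    exact h1 w.2⟩
  map_one' := Subtype.ext (map_one _)
  map_mul' _ _ := Subtype.ext (map_mul _ _ _)

theorem genPr_surjective : Function.Surjective (genPr o hk he hF) := by
  obtain ⟨j, rfl⟩ := Nat.exists_eq_succ_of_ne_zero hk
  intro g
  have h1 : ∀ g ∈ Pn o (j + 2), ∃ w ∈ (sMod o hk he hF).gen, sPr o hk he hF w = g := by
    intro g hg
    rw [Pn_succ, Subgroup.sup_eq_closure] at hg
    induction hg using Subgroup.closure_induction with
    | mem g hg =>
      rcases hg with hg | hg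
      · exact ⟨(sMod o hk he hF).jH ⟨g, hg⟩, Subgroup.mem_sup_left ⟨_, rfl⟩, rfl⟩
      · exact ⟨(sMod o hk he hF).jB ⟨g, hg⟩, Subgroup.mem_sup_right ⟨_, rfl⟩,
          sPr_M o hk he hF _⟩
    | one => exact ⟨1, one_mem _, map_one _⟩
    | mul a b _ _ ha hb =>
      obtain ⟨w, hw, rfl⟩ := ha
      obtain ⟨w', hw', rfl⟩ := hb
      exact ⟨w * w', mul_mem hw hw', map_mul _ _ _⟩
    | inv a _ ha =>
      obtain ⟨w, hw, rfl⟩ := ha
      exact ⟨w⁻¹, inv_mem hw, map_inv _ _⟩
  obtain ⟨w, hw, hw'⟩ := h1 g.1 g.2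
  exact ⟨⟨w, hw⟩, Subtype.ext hw'⟩

theorem genPr_ker_le : (genPr o hk he hF).ker ≤
    ((sQ o hk he hF).comp (sMod o hk he hF).gen.subtype).ker := by
  intro w hw
  have h1 : sPr o hk he hF w.1 = 1 := congrArg Subtype.val hw
  exact sQ_eq_one o hk he hF w.2 h1

/-- The copy of `Pn (k + 1)`. -/
noncomputable def sΓ : Pn o (k + 1) →* SQ o hk he hF :=
  (genPr o hk he hF).liftOfSurjective (genPr_surjective o hk he hF)
    ⟨(sQ o hk he hF).comp (sMod o hk he hF).gen.subtype, genPr_ker_le o hk he hF⟩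

theorem sΓ_apply (w : (sMod o hk he hF).gen) :
    sΓ o hk he hF (genPr o hk he hF w) = sQ o hk he hF w.1 :=
  MonoidHom.liftOfRightInverse_comp_apply _ _
    (Function.rightInverse_surjInv (genPr_surjective o hk he hF)) _ w

theorem sPrK_Γ (g : Pn o (k + 1)) : sPrK o hk he hF (sΓ o hk he hF g) = g.1 := by
  obtain ⟨w, rfl⟩ := genPr_surjective o hk he hF g
  rw [sΓ_apply]
  rfl

theorem sΓ_C {g : TreeAut X} (h1 : g ∈ Pn o (k + 1)) (h2 : g ∈ Pn o (F k)) (h3 : g ∈ Pn o k) :
    sΓ o hk he hF ⟨g, h1⟩ = sQ o hk he hF (sC o hk he hF ⟨g, h2⟩) := by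
  have h4 := sΓ_apply o hk he hF ⟨(sMod o hk he hF).jH ⟨g, h3⟩, Subgroup.mem_sup_left ⟨_, rfl⟩⟩
  exact h4

theorem sΓ_M {g : TreeAut X} (h1 : g ∈ Pn o (k + 1)) (h2 : g ∈ Bn o (F k)) (h3 : g ∈ Bn o k) :
    sΓ o hk he hF ⟨g, h1⟩ = sQ o hk he hF (sM o hk he hF ⟨g, h2⟩) := by
  have h4 := sΓ_apply o hk he hF ⟨(sMod o hk he hF).jB ⟨g, h3⟩, Subgroup.mem_sup_right ⟨_, rfl⟩⟩
  refine Eq.trans (congrArg _ (Subtype.ext ?_)) h4
  exact (sPr_M o hk he hF ⟨g, h2⟩).symm

omit [Finite X] in
theorem injective_of_pr {H : Subgroup (TreeAut X)} (f : H →* SQ o hk he hF)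
    (hf : ∀ h, sPrK o hk he hF (f h) = h.1) : Function.Injective f := by
  intro a b hab
  apply Subtype.ext
  rw [← hf a, ← hf b, hab]

/-- The new state. -/
noncomputable def newSt : St o (k + 1) (k + 1) F (SQ o hk he hF) where
  γ := sΓ o hk he hF
  β i := if h : i < k then (sQ o hk he hF).comp (sB o hk he hF ⟨i, h⟩) else
    if h' : F i ≤ F k then (sQ o hk he hF).comp ((sM o hk he hF).comp
      (Subgroup.inclusion (Bn_mono o h'))) else 1
  δ i := if h : i < k then (sQ o hk he hF).comp (sP o hk he hF ⟨i, h⟩) else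
    if h' : F i ≤ F k then (sQ o hk he hF).comp ((sC o hk he hF).comp
      (Subgroup.inclusion (Pn_mono o h'))) else 1
  γ_inj := injective_of_pr o hk he hF _ (sPrK_Γ o hk he hF)
  β_inj i hi := by
    by_cases h : i < k
    · rw [dif_pos h]
      exact injective_of_pr o hk he hF _ fun g => sPr_B o hk he hF ⟨i, h⟩ g
    · have h' : F i ≤ F k := by
        have : i = k := by omega
        rw [this]
      rw [dif_neg h, dif_pos h']
      exact injective_of_pr o hk he hF _ fun g => sPr_M o hk he hF _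
  δ_inj i hi := by
    by_cases h : i < k
    · rw [dif_pos h]
      exact injective_of_pr o hk he hF _ fun g => sPr_P o hk he hF ⟨i, h⟩ g
    · have h' : F i ≤ F k := by
        have : i = k := by omega
        rw [this]
      rw [dif_neg h, dif_pos h']
      exact injective_of_pr o hk he hF _ fun g => rfl
  hβ i hi g h1 h2 hg := by
    by_cases h : i < k
    · rw [dif_pos h]
      have h3 : g ∈ Pn o k := Pn_mono o (by omega) (Bn_le o i hg)
      have h4 : g ∈ Pn o (F k) := Pn_mono o he h3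
      rw [sΓ_C o hk he hF h1 h4 h3, glueB o hk he hF ⟨i, h⟩ h4 h2 hg]
      rfl
    · have hik : i = k := by omega
      have h' : F i ≤ F k := by rw [hik]
      rw [dif_neg h, dif_pos h']
      subst hik
      exact sΓ_M o hk he hF h1 h2 hg
  hδ i hi g h1 h2 hg := by
    by_cases h : i < k
    · rw [dif_pos h]
      have h3 : g ∈ Pn o k := Pn_mono o (by omega) hg
      have h4 : g ∈ Pn o (F k) := Pn_mono o he h3
      rw [sΓ_C o hk he hF h1 h4 h3, glueP o hk he hF ⟨i, h⟩ h4 h2 hg]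
      rfl
    · have hik : i = k := by omega
      have h' : F i ≤ F k := by rw [hik]
      rw [dif_neg h, dif_pos h']
      subst hik
      exact sΓ_C o hk he hF h1 h2 hg

omit [Finite X] in
/-- The group of the step is in the class. -/
theorem SG_mem {C : ∀ (G : Type) [Group G], Prop} (hst : HasStars C) (hF' : F k ≤ F (k - 1))
    {Q : Type} [Group Q] (hQ : C Q) (S : St o (F k) k F Q) : C (SG o hk he hF) := by
  have hk1 : k - 1 < k := by omega
  refine hst _ (stepStar o hk he hF) Q S.γ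
    (fun i => match i with
      | .m => (S.β (k - 1)).comp (Subgroup.inclusion (Bn_mono o hF'))
      | .b i => S.β i
      | .p i => S.δ i) hQ S.γ_inj ?_ ?_
  · intro i
    cases i with
    | m => exact (S.β_inj _ hk1).comp (Subgroup.inclusion_injective _)
    | b i => exact S.β_inj _ i.2
    | p i => exact S.δ_inj _ i.2
  · intro i l
    cases i with
    | m => exact S.hβ (k - 1) hk1 l.1 _ _ l.2
    | b i => exact S.hβ i i.2 l.1 _ _ l.2
    | p i => exact S.hδ i i.2 l.1 _ _ l.2

include hk he hF in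
theorem step {C : ∀ (G : Type) [Group G], Prop} (hC : ClosedClass C) (hst : HasStars C)
    (hF' : F k ≤ F (k - 1)) {Q : Type} [Group Q] (hQ : C Q) (S : St o (F k) k F Q) :
    ∃ (Q' : Type) (_ : Group Q'), C Q' ∧ Nonempty (St o (k + 1) (k + 1) F Q') :=
  ⟨SQ o hk he hF, inferInstance, hC.dieG _ _ _ (SG_mem o hk he hF hst hF' hQ S),
    ⟨newSt o hk he hF⟩⟩

end Pool.Agent.Helper29.PA
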